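import Pool.Agent.Helper762_MX.Tools
import Pool.Agent.Helper762_QL.Upper

set_option autoImplicit false

/-!
# The base case: claw-free graphs with local weights
-/

namespace Pool.Agent.Helper762_MX

open Finset Pool.Agent.Helper762_QL

variable {V : Type}

open Classical in
theorem glueW (G : SimpleGraph V) (wt : V → ℝ) (P Q : Finset V → Prop) (h0 : P ∅)
    (hg : ∀ Y Z : Finset V, Disjoint Y Z → (∀ y ∈ Y, ∀ z ∈ Z, ¬ G.Adj y z) → Q Y → P Z →
      P (Y ∪ Z)) (W0 : Finset V)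
    (hc : ∀ U : Finset V, U ⊆ W0 → U.Nonempty → Cl G U →
      (∀ x ∈ U, ∀ y ∈ U, Rch G (U : Set V) x y) →
      ∃ Y ⊆ U, Q Y ∧ ∑ v ∈ U, wt v ≤ (Y.card : ℝ)) :
    ∀ (m : ℕ) (W : Finset V), W.card = m → W ⊆ W0 → Cl G W →
      ∃ Y ⊆ W, P Y ∧ ∑ v ∈ W, wt v ≤ (Y.card : ℝ) := by
  intro m
  induction m using Nat.strong_induction_on with
  | _ m ih =>
  intro W hW hW0 hcl
  rcases W.eq_empty_or_nonempty with rfl | ⟨x, hx⟩
  · exact ⟨∅, by simp, h0, by simp⟩
  set U := W.filter (fun z => Rch G (W : Set V) x z) with hU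
  have hUW : U ⊆ W := Finset.filter_subset _ _
  have hxU : x ∈ U := by rw [hU, Finset.mem_filter]; exact ⟨hx, Rch.rfl'⟩
  have hUcl : Cl G U := by
    intro u hu w huw
    rw [hU, Finset.mem_filter] at hu ⊢
    have hw : w ∈ W := hcl u hu.1 w huw
    exact ⟨hw, hu.2.trans (Rch.adj (by exact_mod_cast hu.1) (by exact_mod_cast hw) huw)⟩
  have hxr : ∀ y ∈ U, Rch G (U : Set V) x y := by
    intro y hy
    rw [hU, Finset.mem_filter] at hy
    have := Rch.closed hy.2 (p := fun y => Rch G (U : Set V) x y) Rch.rfl' (by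
      intro p _ q _ hpq hrp
      have hpU : p ∈ (U : Set V) := hrp.mem_right (by exact_mod_cast hxU)
      have hqU : q ∈ (U : Set V) := by
        exact_mod_cast hUcl p (by exact_mod_cast hpU) q hpq
      exact hrp.trans (Rch.adj hpU hqU hpq))
    exact this
  have hUconn : ∀ y ∈ U, ∀ z ∈ U, Rch G (U : Set V) y z := fun y hy z hz =>
    (hxr y hy).symm.trans (hxr z hz)
  obtain ⟨Y, hYU, hPY, hYc⟩ := hc U (hUW.trans hW0) ⟨x, hxU⟩ hUcl hUconn
  have hWU : Cl G (W \ U) := by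
    intro u hu w huw
    rw [Finset.mem_sdiff] at hu ⊢
    refine ⟨hcl u hu.1 w huw, fun hwU => hu.2 (hUcl w hwU u huw.symm)⟩
  have hlt : (W \ U).card < m := by
    rw [← hW]
    exact Finset.card_lt_card (Finset.sdiff_ssubset hUW ⟨x, hxU⟩)
  obtain ⟨Z, hZ, hPZ, hZc⟩ := ih _ hlt (W \ U) rfl (Finset.sdiff_subset.trans hW0) hWU
  have hdisj : Disjoint Y Z := by
    rw [Finset.disjoint_left]
    intro a ha hb
    exact (Finset.mem_sdiff.1 (hZ hb)).2 (hYU ha)
  refine ⟨Y ∪ Z, Finset.union_subset (hYU.trans hUW) (hZ.trans Finset.sdiff_subset), ?_, ?_⟩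
  · refine hg Y Z hdisj ?_ hPY hPZ
    intro y hy z hz hyz
    exact (Finset.mem_sdiff.1 (hZ hz)).2 (hUcl y (hYU hy) z hyz)
  · rw [Finset.card_union_of_disjoint hdisj]
    have h1 : ∑ v ∈ W, wt v = ∑ v ∈ W \ U, wt v + ∑ v ∈ U, wt v :=
      (Finset.sum_sdiff hUW).symm
    rw [h1]
    push_cast
    linarith

open Classical in
/-- data of the base case -/
structure Qs (G : SimpleGraph V) (W : Finset V) (d : ℕ) (β : V → ℝ) : Prop where
  deg : ∀ v, ∀ N : Finset V, (∀ w ∈ N, G.Adj v w) → N.card ≤ d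
  claw : ClawFree G
  loc : ∀ v ∈ W, ∃ φ : Finset V → ℝ, LocalIneq G v φ ∧ β v ≤ φ (W.filter (fun w => G.Adj v w))
  le1 : ∀ v ∈ W, β v ≤ 1
  cl : Cl G W

open Classical in
theorem Qs.comp {G : SimpleGraph V} {W : Finset V} {d : ℕ} {β : V → ℝ} (h : Qs G W d β)
    {U : Finset V} (hUW : U ⊆ W) (hcl : Cl G U)
    (hU : ∀ x ∈ U, ∀ y ∈ U, Rch G (U : Set V) x y) :
    ∃ Y ⊆ U, Elim G Y ∧ ∑ v ∈ U, β v ≤ (Y.card : ℝ) + 1 := by
  let φ : V → Finset V → ℝ := fun v => if hv : v ∈ W then (h.loc v hv).choose else fun _ => 0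
  have hφ : ∀ v ∈ W, LocalIneq G v (φ v) ∧ β v ≤ φ v (W.filter (fun w => G.Adj v w)) := by
    intro v hv
    simp only [φ, dif_pos hv]
    exact (h.loc v hv).choose_spec
  obtain ⟨X, R, hXU, hE, hS, hsum⟩ := avg G φ W (fun v hv => (hφ v hv).1) _ U rfl hUW
  obtain ⟨Y, hYU, hEY, hc⟩ := extend h.claw hXU hE hS hU
  refine ⟨Y, hYU, hEY, ?_⟩
  have h1 : ∑ v ∈ U, β v ≤ ∑ v ∈ U, φ v (U.filter (fun w => G.Adj v w)) := by
    refine Finset.sum_le_sum fun v hv => ?_
    have h3 : U.filter (fun w => G.Adj v w) = W.filter (fun w => G.Adj v w) := by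
      ext w
      simp only [Finset.mem_filter]
      exact ⟨fun h => ⟨hUW h.1, h.2⟩, fun h => ⟨hcl v hv w h.2, h.2⟩⟩
    rw [h3]
    exact (hφ v (hUW hv)).2
  have h2 : (R.card : ℝ) + X.card ≤ Y.card + 1 := by exact_mod_cast hc
  linarith

open Classical in
theorem Qs.model {G : SimpleGraph V} {W : Finset V} {d : ℕ} {β : V → ℝ} (h : Qs G W d β)
    {r : ℕ} (hr : d + 3 ≤ r) :
    ∃ Y ⊆ W, ¬ Model G r (Y : Set V) ∧ ∑ v ∈ W, β v ≤ (Y.card : ℝ) := by
  obtain ⟨Y, hYW, hY, hc⟩ := glueW G β (fun Y => ¬ Model G r (Y : Set V))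
    (fun Y => ¬ Model G r (Y : Set V)) (by
      rintro ⟨f, h1, h2, _⟩
      obtain ⟨⟨z, hz⟩⟩ := (h2 ⟨0, by omega⟩).nonempty
      have := h1 _ hz
      simp at this) (by
      intro Y Z hd hYZ hY hZ hM
      rw [Finset.coe_union] at hM
      rcases hM.split (by omega) (fun y hy z hz => hYZ y (by exact_mod_cast hy) z
        (by exact_mod_cast hz)) (by exact_mod_cast hd) with h | h
      · exact hY h
      · exact hZ h) W (by
      intro U hUW hne hcl hU
      obtain ⟨Y, hYU, hE, hcard⟩ := h.comp hUW hcl hU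
      have hno := hE.no_model h.deg
      by_cases hYeq : Y = U
      · refine ⟨Y, hYU, fun hM => hno (hM.mono (by omega) (Set.Subset.refl _)), ?_⟩
        rw [hYeq]
        calc ∑ v ∈ U, β v ≤ ∑ _v ∈ U, (1 : ℝ) := Finset.sum_le_sum fun v hv => h.le1 v (hUW hv)
          _ = U.card := by simp
      · obtain ⟨v, hvU, hvY⟩ : ∃ v ∈ U, v ∉ Y := by
          by_contra hcon
          push Not at hcon
          exact hYeq (Finset.Subset.antisymm hYU hcon)
        refine ⟨insert v Y, Finset.insert_subset hvU hYU, ?_, ?_⟩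
        · intro hM
          rw [Finset.coe_insert] at hM
          have h1 : Model G (d + 2 + 1) (insert v (Y : Set V)) :=
            hM.mono (by omega) (Set.Subset.refl _)
          exact hno h1.remove
        · rw [Finset.card_insert_of_notMem hvY]
          push_cast
          exact hcard) _ W rfl (Finset.Subset.refl _) h.cl
  exact ⟨Y, hYW, hY, hc⟩

open Classical in
theorem Qs.tds {G : SimpleGraph V} {W : Finset V} {d : ℕ} {β : V → ℝ} (h : Qs G W d β)
    {L : ℕ} (hL : 1 ≤ L) {t : ℕ} (hdt : d ≤ t) (hLt : L ≤ t) :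
    ∃ Y ⊆ W, TDs G t Y ∧ ∑ v ∈ W, (β v - 1 / (L : ℝ)) ≤ (Y.card : ℝ) := by
  have hL0 : (0 : ℝ) < L := by exact_mod_cast hL
  have hinv : (0 : ℝ) < 1 / (L : ℝ) := by positivity
  obtain ⟨Y, hYW, hY, hc⟩ := glueW G (fun v => β v - 1 / (L : ℝ)) (fun Y => TDs G t Y)
    (fun Y => Elim G Y ∨ Y.card ≤ t + 1) (TDs.empty G t) (by
      intro Y Z hd hYZ hY hZ
      rcases hY with hY | hY
      · exact TDs_union_elim (fun v N hN => (h.deg v N hN).trans hdt) hZ hY hd hYZ
      · exact TDs_append hZ hd hYZ hY) W (by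
      intro U hUW hne hcl hU
      by_cases hUL : U.card ≤ L
      · refine ⟨U, Finset.Subset.refl _, Or.inr (by omega), ?_⟩
        calc ∑ v ∈ U, (β v - 1 / (L : ℝ)) ≤ ∑ _v ∈ U, (1 : ℝ) :=
              Finset.sum_le_sum fun v hv => by have := h.le1 v (hUW hv); linarith
          _ = U.card := by simp
      · push Not at hUL
        obtain ⟨Y, hYU, hE, hcard⟩ := h.comp hUW hcl hU
        refine ⟨Y, hYU, Or.inl hE, ?_⟩
        rw [Finset.sum_sub_distrib, Finset.sum_const, nsmul_eq_mul]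
        have h1 : (1 : ℝ) ≤ U.card * (1 / (L : ℝ)) := by
          rw [mul_one_div, le_div_iff₀ hL0, one_mul]
          exact_mod_cast hUL.le
        linarith) _ W rfl (Finset.Subset.refl _) h.cl
  exact ⟨Y, hYW, hY, hc⟩

end Pool.Agent.Helper762_MX
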