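import Pool.Agent.Helper762_QL.Local

set_option autoImplicit false

/-!
# The local inequality at a vertex of degree at most six which is not the centre of a claw
-/

namespace Pool.Agent.Helper762_MX

open Finset Pool.Agent.Helper762_QL

variable {V : Type}

open Classical in
/-- adjacency indicator -/
noncomputable def ai (G : SimpleGraph V) (x y : V) : ℝ := if G.Adj x y then 1 else 0

open Classical in
/-- indicator of being distinct -/
noncomputable def ui (x y : V) : ℝ := if x ≠ y then 1 else 0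

noncomputable def A2 (G : SimpleGraph V) (s : Finset V) : ℝ := ∑ x ∈ s, ∑ y ∈ s, ai G x y

noncomputable def A3 (G : SimpleGraph V) (s : Finset V) : ℝ :=
  ∑ x ∈ s, ∑ y ∈ s, ∑ z ∈ s, ai G x y * ai G y z * ai G x z

/-- the weight -/
noncomputable def phi3 (G : SimpleGraph V) (s : Finset V) : ℝ :=
  (2 + (s.card : ℝ) / s.card + A2 G s / ((s.card : ℝ) * (s.card - 1)) +
    A3 G s / ((s.card : ℝ) * (s.card - 1) * (s.card - 2))) / ((s.card : ℝ) + 1)

theorem ai_nonneg (G : SimpleGraph V) (x y : V) : 0 ≤ ai G x y := by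
  unfold ai; split_ifs <;> norm_num

theorem ai_symm (G : SimpleGraph V) (x y : V) : ai G x y = ai G y x := by
  unfold ai
  by_cases h : G.Adj x y
  · rw [if_pos h, if_pos h.symm]
  · rw [if_neg h, if_neg (fun h' => h h'.symm)]

theorem ui_symm (x y : V) : ui x y = ui y x := by
  unfold ui
  by_cases h : x ≠ y
  · rw [if_pos h, if_pos h.symm]
  · rw [if_neg h, if_neg (fun h' => h h'.symm)]

theorem ui_nonneg (x y : V) : 0 ≤ ui x y := by
  unfold ui; split_ifs <;> norm_num

theorem ai_le_ui (G : SimpleGraph V) (x y : V) : ai G x y ≤ ui x y := by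
  unfold ai ui
  by_cases h : G.Adj x y
  · rw [if_pos h, if_pos h.ne]
  · rw [if_neg h]; split_ifs <;> norm_num

theorem ai_self (G : SimpleGraph V) (x : V) : ai G x x = 0 := by
  unfold ai; rw [if_neg (G.loopless.irrefl x)]

theorem ui_self (x : V) : ui x x = 0 := by
  unfold ui; rw [if_neg (fun h => h rfl)]

theorem A2_nonneg (G : SimpleGraph V) (s : Finset V) : 0 ≤ A2 G s :=
  Finset.sum_nonneg fun x _ => Finset.sum_nonneg fun y _ => ai_nonneg G x y

theorem A3_nonneg (G : SimpleGraph V) (s : Finset V) : 0 ≤ A3 G s :=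
  Finset.sum_nonneg fun x _ => Finset.sum_nonneg fun y _ => Finset.sum_nonneg fun z _ =>
    mul_nonneg (mul_nonneg (ai_nonneg G x y) (ai_nonneg G y z)) (ai_nonneg G x z)

theorem sum_ui {s : Finset V} {x : V} (hx : x ∈ s) : ∑ y ∈ s, ui x y = (s.card : ℝ) - 1 := by
  classical
  have h1 : ∑ y ∈ s, ui x y = ∑ y ∈ s.erase x, (1 : ℝ) := by
    rw [← Finset.add_sum_erase s _ hx, ui_self, zero_add]
    refine Finset.sum_congr rfl fun y hy => ?_
    unfold ui
    rw [if_pos (Finset.ne_of_mem_erase hy).symm]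
  rw [h1, Finset.sum_const, Finset.card_erase_of_mem hx, nsmul_eq_mul, mul_one,
    Nat.cast_sub (Finset.card_pos.2 ⟨x, hx⟩)]
  simp

theorem sum_ui_ui {s : Finset V} {x y : V} (hx : x ∈ s) (hy : y ∈ s) (hxy : x ≠ y) :
    ∑ w ∈ s, ui x w * ui y w = (s.card : ℝ) - 2 := by
  classical
  have hy' : y ∈ s.erase x := Finset.mem_erase.2 ⟨hxy.symm, hy⟩
  have h1 : ∑ w ∈ s, ui x w * ui y w = ∑ w ∈ s.erase x, ui y w := by
    rw [← Finset.add_sum_erase s _ hx, ui_self, zero_mul, zero_add]
    refine Finset.sum_congr rfl fun w hw => ?_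
    have : ui x w = 1 := by
      unfold ui
      rw [if_pos (Finset.ne_of_mem_erase hw).symm]
    rw [this, one_mul]
  rw [h1, sum_ui hy', Finset.card_erase_of_mem hx, Nat.cast_sub (Finset.card_pos.2 ⟨x, hx⟩)]
  push_cast
  ring

theorem sum_ui_ui_ui {s : Finset V} {x y z : V} (hx : x ∈ s) (hy : y ∈ s) (hz : z ∈ s)
    (hxy : x ≠ y) (hxz : x ≠ z) (hyz : y ≠ z) :
    ∑ w ∈ s, ui x w * ui y w * ui z w = (s.card : ℝ) - 3 := by
  classical
  have hy' : y ∈ s.erase x := Finset.mem_erase.2 ⟨hxy.symm, hy⟩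
  have hz' : z ∈ s.erase x := Finset.mem_erase.2 ⟨hxz.symm, hz⟩
  have h1 : ∑ w ∈ s, ui x w * ui y w * ui z w = ∑ w ∈ s.erase x, ui y w * ui z w := by
    rw [← Finset.add_sum_erase s _ hx, ui_self, zero_mul, zero_mul, zero_add]
    refine Finset.sum_congr rfl fun w hw => ?_
    have : ui x w = 1 := by
      unfold ui
      rw [if_pos (Finset.ne_of_mem_erase hw).symm]
    rw [this, one_mul]
  rw [h1, sum_ui_ui hy' hz' hyz, Finset.card_erase_of_mem hx,
    Nat.cast_sub (Finset.card_pos.2 ⟨x, hx⟩)]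
  push_cast
  ring

theorem sum_erase_eq [DecidableEq V] {s : Finset V} (w : V) (f : V → ℝ) :
    ∑ x ∈ s.erase w, f x = ∑ x ∈ s, ui x w * f x := by
  rw [← Finset.filter_ne' s w, Finset.sum_filter]
  refine Finset.sum_congr rfl fun x _ => ?_
  unfold ui
  by_cases h : x = w
  · rw [if_neg (not_not.2 h), if_neg (not_not.2 h), zero_mul]
  · rw [if_pos h, if_pos h, one_mul]

theorem sum_A2 [DecidableEq V] (G : SimpleGraph V) (s : Finset V) :
    ∑ w ∈ s, A2 G (s.erase w) = ((s.card : ℝ) - 2) * A2 G s := by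
  have h1 : ∀ w ∈ s, A2 G (s.erase w) =
      ∑ x ∈ s, ∑ y ∈ s, (ui x w * ui y w) * ai G x y := by
    intro w _
    unfold A2
    rw [sum_erase_eq]
    refine Finset.sum_congr rfl fun x _ => ?_
    rw [sum_erase_eq, Finset.mul_sum]
    refine Finset.sum_congr rfl fun y _ => ?_
    ring
  rw [Finset.sum_congr rfl h1, Finset.sum_comm]
  unfold A2
  rw [Finset.mul_sum]
  refine Finset.sum_congr rfl fun x hx => ?_
  rw [Finset.sum_comm, Finset.mul_sum]
  refine Finset.sum_congr rfl fun y hy => ?_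
  rw [← Finset.sum_mul]
  by_cases hxy : x = y
  · rw [hxy, ai_self, mul_zero, mul_zero]
  · rw [sum_ui_ui hx hy hxy]

theorem sum_A3 [DecidableEq V] (G : SimpleGraph V) (s : Finset V) :
    ∑ w ∈ s, A3 G (s.erase w) = ((s.card : ℝ) - 3) * A3 G s := by
  have h1 : ∀ w ∈ s, A3 G (s.erase w) =
      ∑ x ∈ s, ∑ y ∈ s, ∑ z ∈ s, (ui x w * ui y w * ui z w) *
        (ai G x y * ai G y z * ai G x z) := by
    intro w _
    unfold A3
    rw [sum_erase_eq]
    refine Finset.sum_congr rfl fun x _ => ?_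
    rw [sum_erase_eq, Finset.mul_sum]
    refine Finset.sum_congr rfl fun y _ => ?_
    rw [sum_erase_eq, Finset.mul_sum, Finset.mul_sum]
    refine Finset.sum_congr rfl fun z _ => ?_
    ring
  rw [Finset.sum_congr rfl h1, Finset.sum_comm]
  unfold A3
  rw [Finset.mul_sum]
  refine Finset.sum_congr rfl fun x hx => ?_
  rw [Finset.sum_comm, Finset.mul_sum]
  refine Finset.sum_congr rfl fun y hy => ?_
  rw [Finset.sum_comm, Finset.mul_sum]
  refine Finset.sum_congr rfl fun z hz => ?_
  rw [← Finset.sum_mul]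
  by_cases hxy : x = y
  · rw [hxy, ai_self, zero_mul, zero_mul, mul_zero, mul_zero]
  by_cases hyz : y = z
  · rw [hyz, ai_self, mul_zero, zero_mul, mul_zero, mul_zero]
  by_cases hxz : x = z
  · rw [hxz, ai_self, mul_zero, mul_zero, mul_zero]
  rw [sum_ui_ui_ui hx hy hz hxy hxz hyz]

theorem U2 (s : Finset V) : ∑ x ∈ s, ∑ y ∈ s, ui x y = (s.card : ℝ) * (s.card - 1) := by
  rw [Finset.sum_congr rfl fun x hx => sum_ui hx, Finset.sum_const, nsmul_eq_mul]

theorem U3 (s : Finset V) : ∑ x ∈ s, ∑ y ∈ s, ∑ z ∈ s, ui x y * ui y z * ui x z =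
    (s.card : ℝ) * (s.card - 1) * (s.card - 2) := by
  have h1 : ∀ x ∈ s, ∑ y ∈ s, ∑ z ∈ s, ui x y * ui y z * ui x z =
      ((s.card : ℝ) - 1) * (s.card - 2) := by
    intro x hx
    have h2 : ∀ y ∈ s, ∑ z ∈ s, ui x y * ui y z * ui x z = ui x y * ((s.card : ℝ) - 2) := by
      intro y hy
      by_cases hxy : x = y
      · rw [hxy, ui_self]
        simp
      · rw [← sum_ui_ui hx hy hxy, Finset.mul_sum]
        refine Finset.sum_congr rfl fun z _ => ?_
        ring
    rw [Finset.sum_congr rfl h2, ← Finset.sum_mul, sum_ui hx]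
  rw [Finset.sum_congr rfl h1, Finset.sum_const, nsmul_eq_mul]
  ring

theorem A2_le (G : SimpleGraph V) (s : Finset V) : A2 G s ≤ (s.card : ℝ) * (s.card - 1) := by
  rw [← U2]
  exact Finset.sum_le_sum fun x _ => Finset.sum_le_sum fun y _ => ai_le_ui G x y

theorem A3_le (G : SimpleGraph V) (s : Finset V) :
    A3 G s ≤ (s.card : ℝ) * (s.card - 1) * (s.card - 2) := by
  rw [← U3]
  refine Finset.sum_le_sum fun x _ => Finset.sum_le_sum fun y _ => Finset.sum_le_sum fun z _ => ?_
  refine mul_le_mul (mul_le_mul (ai_le_ui G x y) (ai_le_ui G y z) (ai_nonneg _ _ _)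
    (ui_nonneg _ _)) (ai_le_ui G x z) (ai_nonneg _ _ _) ?_
  exact mul_nonneg (ui_nonneg _ _) (ui_nonneg _ _)

open Classical in
theorem A2_two (G : SimpleGraph V) {s : Finset V} (hs : s.card = 2) :
    A2 G s / 2 ≤ if Clq G s then 1 else 0 := by
  split_ifs with h
  · have := A2_le G s
    rw [hs] at this
    push_cast at this
    linarith
  · have h0 : A2 G s = 0 := by
      refine Finset.sum_eq_zero fun x hx => Finset.sum_eq_zero fun y hy => ?_
      unfold ai
      rw [if_neg]
      intro hxy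
      apply h
      intro p hp q hq hpq
      have hs2 : s = {x, y} := by
        symm
        apply Finset.eq_of_subset_of_card_le
        · intro w hw
          simp only [Finset.mem_insert, Finset.mem_singleton] at hw
          rcases hw with rfl | rfl <;> assumption
        · rw [hs, Finset.card_pair hxy.ne]
      rw [hs2] at hp hq
      simp only [Finset.mem_insert, Finset.mem_singleton] at hp hq
      rcases hp with rfl | rfl <;> rcases hq with rfl | rfl
      · exact absurd rfl hpq
      · exact hxy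
      · exact hxy.symm
      · exact absurd rfl hpq
    rw [h0]; norm_num

open Classical in
theorem A3_three (G : SimpleGraph V) {s : Finset V} (hs : s.card = 3) :
    A3 G s / 6 ≤ if Clq G s then 1 else 0 := by
  split_ifs with h
  · have := A3_le G s
    rw [hs] at this
    push_cast at this
    linarith
  · have h0 : A3 G s = 0 := by
      refine Finset.sum_eq_zero fun x hx => Finset.sum_eq_zero fun y hy =>
        Finset.sum_eq_zero fun z hz => ?_
      by_contra hne
      have hxy : G.Adj x y := by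
        by_contra hcon
        apply hne
        unfold ai
        rw [if_neg hcon]
        ring
      have hyz : G.Adj y z := by
        by_contra hcon
        apply hne
        have : ai G y z = 0 := by unfold ai; rw [if_neg hcon]
        rw [this]
        ring
      have hxz : G.Adj x z := by
        by_contra hcon
        apply hne
        have : ai G x z = 0 := by unfold ai; rw [if_neg hcon]
        rw [this]
        ring
      apply h
      have hs2 : s = {x, y, z} := by
        symm
        apply Finset.eq_of_subset_of_card_le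
        · intro w hw
          simp only [Finset.mem_insert, Finset.mem_singleton] at hw
          rcases hw with rfl | rfl | rfl <;> assumption
        · rw [hs, Finset.card_insert_of_notMem, Finset.card_pair hyz.ne]
          simp only [Finset.mem_insert, Finset.mem_singleton, not_or]
          exact ⟨hxy.ne, hxz.ne⟩
      intro p hp q hq hpq
      rw [hs2] at hp hq
      simp only [Finset.mem_insert, Finset.mem_singleton] at hp hq
      rcases hp with rfl | rfl | rfl <;> rcases hq with rfl | rfl | rfl <;>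
        first
          | exact absurd rfl hpq
          | assumption
          | (apply SimpleGraph.Adj.symm; assumption)
    rw [h0]; norm_num

open Classical in
/-- the local inequality -/
theorem phi3_local (G : SimpleGraph V) (v : V) : LocalIneq G v (phi3 G) := by
  intro s _
  obtain ⟨m, hm⟩ : ∃ m, s.card = m := ⟨_, rfl⟩
  have h2 := A2_nonneg G s
  have h3 := A3_nonneg G s
  have hclq : (0 : ℝ) ≤ if Clq G s then 1 else 0 := by split_ifs <;> norm_num
  rcases Nat.eq_zero_or_pos m with rfl | hmpos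
  · rw [Finset.card_eq_zero] at hm
    subst hm
    have : Clq G (∅ : Finset V) := fun x hx => absurd hx (Finset.notMem_empty x)
    rw [if_pos this, if_pos rfl]
    unfold phi3 A2 A3
    simp
    norm_num
  have hne : s ≠ ∅ := by
    intro h
    rw [h] at hm
    simp at hm
    omega
  rw [if_neg hne, add_zero]
  have hm1 : (1 : ℝ) ≤ m := by exact_mod_cast hmpos
  have hm0 : (m : ℝ) ≠ 0 := by positivity
  have hcard : ∀ w ∈ s, ((s.erase w).card : ℝ) = (m : ℝ) - 1 := by
    intro w hw
    rw [Finset.card_erase_of_mem hw, hm, Nat.cast_sub hmpos]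
    simp
  have hsum : ∑ w ∈ s, phi3 G (s.erase w) =
      (2 * m + m * (((m : ℝ) - 1) / (m - 1)) +
        (((m : ℝ) - 2) * A2 G s) / (((m : ℝ) - 1) * (m - 1 - 1)) +
        (((m : ℝ) - 3) * A3 G s) / (((m : ℝ) - 1) * (m - 1 - 1) * (m - 1 - 2))) / m := by
    rw [← hm, ← sum_A2, ← sum_A3]
    have h4 : ∀ w ∈ s, phi3 G (s.erase w) = (2 + ((m : ℝ) - 1) / (m - 1) +
        A2 G (s.erase w) / (((m : ℝ) - 1) * (m - 1 - 1)) +
        A3 G (s.erase w) / (((m : ℝ) - 1) * (m - 1 - 1) * (m - 1 - 2))) / m := by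
      intro w hw
      unfold phi3
      rw [hcard w hw]
      congr 1
      ring
    rw [Finset.sum_congr rfl h4, ← Finset.sum_div, hm]
    congr 1
    rw [Finset.sum_add_distrib, Finset.sum_add_distrib, Finset.sum_const, hm, ← Finset.sum_div,
      ← Finset.sum_div, nsmul_eq_mul]
    ring
  rw [hsum]
  unfold phi3
  rw [hm]
  have hm1' : ((m : ℝ) + 1) ≠ 0 := by positivity
  rw [mul_div_cancel₀ _ hm1']
  rcases Nat.lt_or_ge m 4 with hlt | hge
  · interval_cases m
    · norm_num
      have h4 : A2 G s = 0 := by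
        have := A2_le G s
        rw [hm] at this
        norm_num at this
        linarith
      have : Clq G s := by
        obtain ⟨x, hx⟩ := Finset.card_eq_one.1 hm
        intro p hp q hq hpq
        rw [hx, Finset.mem_singleton] at hp hq
        exact absurd (hp.trans hq.symm) hpq
      rw [if_pos this]
      norm_num
    · have := A2_two G hm
      norm_num
      linarith
    · have := A3_three G hm
      norm_num
      linarith
  · have hm4 : (4 : ℝ) ≤ m := by exact_mod_cast hge
    have e1 : (m : ℝ) - 1 ≠ 0 := by linarith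
    have e2 : (m : ℝ) - 1 - 1 ≠ 0 := by linarith
    have e3 : (m : ℝ) - 1 - 2 ≠ 0 := by linarith
    have e4 : (m : ℝ) - 2 ≠ 0 := by linarith
    have h5 : (2 * m + m * (((m : ℝ) - 1) / (m - 1)) +
        (((m : ℝ) - 2) * A2 G s) / (((m : ℝ) - 1) * (m - 1 - 1)) +
        (((m : ℝ) - 3) * A3 G s) / (((m : ℝ) - 1) * (m - 1 - 1) * (m - 1 - 2))) / m =
        2 + (m : ℝ) / m + A2 G s / ((m : ℝ) * (m - 1)) +
          A3 G s / ((m : ℝ) * (m - 1) * (m - 2)) := by
      have e5 : (m : ℝ) - 1 - 1 = m - 2 := by ring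
      have e6 : (m : ℝ) - 1 - 2 = m - 3 := by ring
      have e7 : (m : ℝ) - 3 ≠ 0 := by linarith
      rw [e5, e6]
      field_simp
      try ring
    rw [h5]
    linarith

/-- Goodman's identity for sets without independent triples -/
theorem goodman (G : SimpleGraph V) {s : Finset V}
    (hs : ∀ x ∈ s, ∀ y ∈ s, ∀ z ∈ s, x ≠ y → x ≠ z → y ≠ z →
      G.Adj x y ∨ G.Adj x z ∨ G.Adj y z) :
    A3 G s = (s.card : ℝ) * (s.card - 1) * (s.card - 2) - 3 * ((s.card : ℝ) - 2) * A2 G s +
      3 * ∑ x ∈ s, ((∑ y ∈ s, ai G x y) ^ 2 - ∑ y ∈ s, ai G x y) := by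
  classical
  have hzero : ∀ x ∈ s, ∀ y ∈ s, ∀ z ∈ s,
      (ui x y - ai G x y) * (ui y z - ai G y z) * (ui x z - ai G x z) = 0 := by
    intro x hx y hy z hz
    by_cases hxy : x = y
    · rw [hxy, ai_self, ui_self]; ring
    by_cases hyz : y = z
    · rw [hyz, ai_self, ui_self]; ring
    by_cases hxz : x = z
    · rw [hxz, ai_self, ui_self]; ring
    have key : ∀ p q : V, p ≠ q → G.Adj p q → ui p q - ai G p q = 0 := by
      intro p q hpq hadj
      unfold ui ai
      rw [if_pos hpq, if_pos hadj]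
      ring
    rcases hs x hx y hy z hz hxy hxz hyz with h | h | h
    · rw [key x y hxy h]; ring
    · rw [key x z hxz h]; ring
    · rw [key y z hyz h]; ring
  have hau : ∀ x y, ai G x y * ui x y = ai G x y := by
    intro x y
    unfold ai ui
    by_cases h : G.Adj x y
    · rw [if_pos h, if_pos h.ne]; ring
    · rw [if_neg h]; ring
  have haa : ∀ x y, ai G x y * ai G x y = ai G x y := by
    intro x y
    unfold ai
    split_ifs <;> norm_num
  -- the four sums
  have hS : ∑ x ∈ s, ∑ y ∈ s, ∑ z ∈ s,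
      (ui x y - ai G x y) * (ui y z - ai G y z) * (ui x z - ai G x z) = 0 :=
    Finset.sum_eq_zero fun x hx => Finset.sum_eq_zero fun y hy => Finset.sum_eq_zero fun z hz =>
      hzero x hx y hy z hz
  have hexp : ∀ x y z : V,
      (ui x y - ai G x y) * (ui y z - ai G y z) * (ui x z - ai G x z) =
        ui x y * ui y z * ui x z - ai G x y * (ui y z * ui x z) -
        ai G y z * (ui x y * ui x z) - ai G x z * (ui x y * ui y z) +
        ai G x y * ai G y z * ui x z + ai G x y * ai G x z * ui y z +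
        ai G y z * ai G x z * ui x y - ai G x y * ai G y z * ai G x z := by
    intro x y z; ring
  simp only [hexp, Finset.sum_add_distrib, Finset.sum_sub_distrib] at hS
  rw [U3] at hS
  -- sums with one adjacency
  have hB : ∑ x ∈ s, ∑ y ∈ s, ∑ z ∈ s, ai G x y * (ui y z * ui x z) =
      ((s.card : ℝ) - 2) * A2 G s := by
    unfold A2
    rw [Finset.mul_sum]
    refine Finset.sum_congr rfl fun x hx => ?_
    rw [Finset.mul_sum]
    refine Finset.sum_congr rfl fun y hy => ?_
    rw [← Finset.mul_sum]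
    by_cases hxy : x = y
    · rw [hxy, ai_self]; ring
    · rw [sum_ui_ui hy hx (Ne.symm hxy)]; ring
  have hB2 : ∑ x ∈ s, ∑ y ∈ s, ∑ z ∈ s, ai G y z * (ui x y * ui x z) =
      ((s.card : ℝ) - 2) * A2 G s := by
    rw [← hB]
    rw [Finset.sum_comm]
    refine Finset.sum_congr rfl fun y _ => ?_
    rw [Finset.sum_comm]
    refine Finset.sum_congr rfl fun z _ => ?_
    refine Finset.sum_congr rfl fun x _ => ?_
    rw [ui_symm x y, ui_symm x z]
    ring
  have hB3 : ∑ x ∈ s, ∑ y ∈ s, ∑ z ∈ s, ai G x z * (ui x y * ui y z) =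
      ((s.card : ℝ) - 2) * A2 G s := by
    rw [← hB]
    refine Finset.sum_congr rfl fun x _ => ?_
    rw [Finset.sum_comm]
    refine Finset.sum_congr rfl fun z _ => ?_
    refine Finset.sum_congr rfl fun y _ => ?_
    rw [ui_symm y z]
    ring
  -- sums with two adjacencies
  have hC : ∑ x ∈ s, ∑ y ∈ s, ∑ z ∈ s, ai G x y * ai G x z * ui y z =
      ∑ x ∈ s, ((∑ y ∈ s, ai G x y) ^ 2 - ∑ y ∈ s, ai G x y) := by
    refine Finset.sum_congr rfl fun x _ => ?_
    have h1 : ∀ y ∈ s, ∑ z ∈ s, ai G x y * ai G x z * ui y z =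
        ai G x y * (∑ z ∈ s, ai G x z) - ai G x y := by
      intro y hy
      have h2 : ∀ z ∈ s, ai G x y * ai G x z * ui y z =
          ai G x y * ai G x z - if z = y then ai G x y else 0 := by
        intro z _
        unfold ui
        by_cases hzy : z = y
        · rw [if_neg (not_not.2 hzy.symm), if_pos hzy, hzy, haa]; ring
        · rw [if_pos (Ne.symm hzy), if_neg hzy]; ring
      rw [Finset.sum_congr rfl h2, Finset.sum_sub_distrib, Finset.sum_ite_eq' s y, if_pos hy,
        Finset.mul_sum]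
    rw [Finset.sum_congr rfl h1, Finset.sum_sub_distrib, ← Finset.sum_mul]
    ring
  have hC2 : ∑ x ∈ s, ∑ y ∈ s, ∑ z ∈ s, ai G x y * ai G y z * ui x z =
      ∑ x ∈ s, ((∑ y ∈ s, ai G x y) ^ 2 - ∑ y ∈ s, ai G x y) := by
    rw [← hC, Finset.sum_comm]
    refine Finset.sum_congr rfl fun y _ => Finset.sum_congr rfl fun x _ =>
      Finset.sum_congr rfl fun z _ => ?_
    rw [ai_symm G x y]
  have hC3 : ∑ x ∈ s, ∑ y ∈ s, ∑ z ∈ s, ai G y z * ai G x z * ui x y =
      ∑ x ∈ s, ((∑ y ∈ s, ai G x y) ^ 2 - ∑ y ∈ s, ai G x y) := by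
    rw [← hC]
    have h1 : ∀ x ∈ s, ∑ y ∈ s, ∑ z ∈ s, ai G y z * ai G x z * ui x y =
        ∑ z ∈ s, ∑ y ∈ s, ai G y z * ai G x z * ui x y := fun x _ => Finset.sum_comm
    rw [Finset.sum_congr rfl h1, Finset.sum_comm]
    refine Finset.sum_congr rfl fun z _ => Finset.sum_congr rfl fun x _ =>
      Finset.sum_congr rfl fun y _ => ?_
    rw [ai_symm G y z, ai_symm G x z]
    ring
  rw [hB, hB2, hB3, hC, hC2, hC3] at hS
  have hA : ∑ x ∈ s, ∑ y ∈ s, ∑ z ∈ s, ai G x y * ai G y z * ai G x z = A3 G s := rfl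
  rw [hA] at hS
  linarith

theorem goodman_le (G : SimpleGraph V) {s : Finset V}
    (hs : ∀ x ∈ s, ∀ y ∈ s, ∀ z ∈ s, x ≠ y → x ≠ z → y ≠ z →
      G.Adj x y ∨ G.Adj x z ∨ G.Adj y z) (k : ℕ) :
    3 * (2 * (k : ℝ) - s.card + 2) * A2 G s - 3 * s.card * (k * (k + 1)) +
      (s.card : ℝ) * (s.card - 1) * (s.card - 2) ≤ A3 G s := by
  classical
  rw [goodman G hs]
  have h1 : ∀ x ∈ s, 2 * (k : ℝ) * (∑ y ∈ s, ai G x y) - k * (k + 1) ≤
      (∑ y ∈ s, ai G x y) ^ 2 - ∑ y ∈ s, ai G x y := by
    intro x _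
    obtain ⟨e, he⟩ : ∃ e : ℕ, ∑ y ∈ s, ai G x y = e := by
      refine ⟨(s.filter (fun y => G.Adj x y)).card, ?_⟩
      unfold ai
      rw [Finset.sum_boole]
    rw [he]
    have h2 : (0 : ℝ) ≤ ((e : ℝ) - k) * (e - k - 1) := by
      rcases Nat.lt_or_ge k e with h | h
      · have : (k : ℝ) + 1 ≤ e := by exact_mod_cast h
        exact mul_nonneg (by linarith) (by linarith)
      · have : (e : ℝ) ≤ k := by exact_mod_cast h
        exact mul_nonneg_of_nonpos_of_nonpos (by linarith) (by linarith)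
    nlinarith
  have h2 := Finset.sum_le_sum h1
  rw [Finset.sum_sub_distrib, Finset.sum_const, nsmul_eq_mul, ← Finset.mul_sum] at h2
  have h3 : ∑ x ∈ s, ∑ y ∈ s, ai G x y = A2 G s := rfl
  rw [h3] at h2
  nlinarith

theorem phi3_bound (G : SimpleGraph V) {s : Finset V}
    (hs : ∀ x ∈ s, ∀ y ∈ s, ∀ z ∈ s, x ≠ y → x ≠ z → y ≠ z →
      G.Adj x y ∨ G.Adj x z ∨ G.Adj y z) (hcard : s.card ≤ 6) :
    alpha s.card ≤ phi3 G s := by
  have h2 := A2_nonneg G s
  have h3 := A3_nonneg G s
  have k0 := goodman_le G hs 0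
  have k1 := goodman_le G hs 1
  have k2 := goodman_le G hs 2
  obtain ⟨m, hm⟩ : ∃ m, s.card = m := ⟨_, rfl⟩
  unfold phi3
  rw [hm] at k0 k1 k2 hcard ⊢
  unfold alpha
  interval_cases m
  · norm_num
  · norm_num
  · norm_num
    linarith
  · norm_num at k0 ⊢
    linarith
  · norm_num at k0 k1 ⊢
    linarith
  · norm_num at k1 ⊢
    linarith
  · norm_num at k1 k2 ⊢
    linarith

end Pool.Agent.Helper762_MX
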