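import Pool.Agent.Helper762_MX.Induct

set_option autoImplicit false

/-!
# The two upper bounds for the mixed class
-/

namespace Pool.Agent.Helper762_MX

open Finset Pool.Agent.Helper762_QL

variable {V : Type}

open Classical in
theorem model_step {r : ℕ} (hr : 4 ≤ r) (J J₁ : SimpleGraph V) (F : Finset V) (y : V)
    (hJ : ∀ a b, J.Adj a b → J₁.Adj a b) (hy : y ∉ F)
    (hcl : ∀ a ∈ F, ∀ b ∈ F, J₁.Adj y a → J₁.Adj y b → a ≠ b → J₁.Adj a b)
    (hc : (F.filter (fun w => J₁.Adj y w)).card ≤ 2) (hF : ¬ Model J₁ r (F : Set V)) :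
    ¬ Model J r ((insert y F : Finset V) : Set V) := by
  intro hM
  have h1 : Model J₁ r ((insert y F : Finset V) : Set V) :=
    model_graph_mono (fun x _ z _ h => hJ x z h) hM
  exact hF (Model.simplicial hy hcl (by omega) h1)

open Classical in
theorem tds_step {t : ℕ} (ht : 2 ≤ t) (J J₁ : SimpleGraph V) (F : Finset V) (y : V)
    (hJ : ∀ a b, J.Adj a b → J₁.Adj a b) (hy : y ∉ F)
    (hcl : ∀ a ∈ F, ∀ b ∈ F, J₁.Adj y a → J₁.Adj y b → a ≠ b → J₁.Adj a b)
    (hc : (F.filter (fun w => J₁.Adj y w)).card ≤ 2) (hF : TDs J₁ t F) :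
    TDs J t (insert y F) := by
  refine TDs_mono (fun x _ z _ h => hJ x z h) ?_
  refine hF.insert hy (N := F.filter (fun w => J₁.Adj y w))
    (fun w => by rw [Finset.mem_filter]) ?_ (hc.trans ht)
  intro a ha b hb hab
  rw [Finset.mem_filter] at ha hb
  exact hcl a ha.1 b hb.1 ha.2 hb.2 hab

open Classical in
theorem Inv.base {J : SimpleGraph V} {T : Finset V} {d : ℕ} {β : V → ℝ} (h : Inv J ∅ T d β) :
    Qs (inside J T) T d β := by
  constructor
  · intro v N hN
    rcases N.eq_empty_or_nonempty with rfl | ⟨w, hw⟩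
    · simp
    · have hv : v ∈ T := (hN w hw).1
      refine (Finset.card_le_card ?_).trans (h.tdeg v hv)
      intro x hx
      rw [Finset.mem_filter, Finset.empty_union]
      exact ⟨(hN x hx).2.1, (hN x hx).2.2⟩
  · intro v a b c ha hb hc hab hac hbc
    have hno : ∀ s ∈ (∅ : Finset V), ¬ J.Adj v s := by simp
    rcases (h.ql v ha.1 hno).1 a ha.2.1 b hb.2.1 c hc.2.1 ha.2.2 hb.2.2 hc.2.2 hab hac hbc with
      h | h | h
    · exact Or.inl ⟨ha.2.1, hb.2.1, h⟩
    · exact Or.inr (Or.inl ⟨ha.2.1, hc.2.1, h⟩)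
    · exact Or.inr (Or.inr ⟨hb.2.1, hc.2.1, h⟩)
  · intro v hv
    have hno : ∀ s ∈ (∅ : Finset V), ¬ J.Adj v s := by simp
    obtain ⟨_, φ, h1, h2⟩ := h.ql v hv hno
    refine ⟨φ, h1, ?_⟩
    have h3 : T.filter (fun w => (inside J T).Adj v w) = T.filter (fun w => J.Adj v w) := by
      ext w
      simp only [Finset.mem_filter]
      exact ⟨fun h => ⟨h.1, h.2.2.2⟩, fun h => ⟨h.1, hv, h.1, h.2⟩⟩
    rw [h3]
    exact h2
  · exact h.le1
  · intro u _ w huw
    exact huw.2.1

open Classical in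
/-- the mixed graphs -/
structure Mixed (G : SimpleGraph V) [Fintype V] (d k : ℕ) (S : Finset V) : Prop where
  deg : ∀ v, ∀ N : Finset V, (∀ w ∈ N, G.Adj v w) → N.card ≤ d
  sdeg : ∀ v ∈ S, ∀ N : Finset V, (∀ w ∈ N, G.Adj v w) → N.card ≤ k
  out : ∀ t, t ∉ S →
    (∃ s ∈ S, G.Adj t s ∧ (∀ s' ∈ S, G.Adj t s' → s' = s) ∧
      ∀ x y, G.Adj t x → G.Adj t y → x ≠ s → y ≠ s → x ≠ y → G.Adj x y) ∨
    ((∀ s ∈ S, ¬ G.Adj t s) ∧
      (∀ x y z, G.Adj t x → G.Adj t y → G.Adj t z → x ≠ y → x ≠ z → y ≠ z →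
        G.Adj x y ∨ G.Adj x z ∨ G.Adj y z) ∧
      ∃ φ : Finset V → ℝ, LocalIneq G t φ ∧
        alpha d ≤ φ (Finset.univ.filter (fun w => G.Adj t w)))

open Classical in
theorem Mixed.inv [Fintype V] {G : SimpleGraph V} {d k : ℕ} {S : Finset V} (h : Mixed G d k S)
    (hd : 2 ≤ d) : Inv G S (Finset.univ \ S) d (fun _ => alpha d) := by
  constructor
  · exact Finset.disjoint_sdiff
  · intro t _
    exact h.deg t _ fun w hw => (Finset.mem_filter.1 hw).2
  · intro t ht s hs s' hs' hts hts'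
    rw [Finset.mem_sdiff] at ht
    rcases h.out t ht.2 with ⟨s₀, _, _, h2, _⟩ | ⟨h1, _⟩
    · rw [h2 s hs hts, h2 s' hs' hts']
    · exact absurd hts (h1 s hs)
  · intro t ht s hs hts x hx y hy htx hty hxy
    rw [Finset.mem_sdiff] at ht hx hy
    rcases h.out t ht.2 with ⟨s₀, h0, _, _, h3⟩ | ⟨h1, _⟩
    · exact h3 x y htx hty (fun h' => hx.2 (h' ▸ h0)) (fun h' => hy.2 (h' ▸ h0)) hxy
    · exact absurd hts (h1 s hs)
  · intro t ht hno
    rw [Finset.mem_sdiff] at ht
    rcases h.out t ht.2 with ⟨s₀, h0, h1, _⟩ | ⟨_, h1, φ, h2, h3⟩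
    · exact absurd h1 (hno s₀ h0)
    · refine ⟨fun x _ y _ z _ => h1 x y z, φ, ?_, ?_⟩
      · intro s hs
        refine (h2 s fun w hw => (hs w hw).2.2).trans ?_
        have h4 : (if Clq G s then (1 : ℝ) else 0) ≤
            (if Clq (inside G (Finset.univ \ S)) s then (1 : ℝ) else 0) := by
          by_cases hc : Clq G s
          · have hc' : Clq (inside G (Finset.univ \ S)) s := fun x hx y hy hxy =>
              ⟨(hs x hx).2.1, (hs y hy).2.1, hc x hx y hy hxy⟩
            rw [if_pos hc, if_pos hc']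
          · rw [if_neg hc]
            split_ifs <;> norm_num
        gcongr
      · have h4 : (Finset.univ \ S).filter (fun w => G.Adj t w) =
            Finset.univ.filter (fun w => G.Adj t w) := by
          ext w
          simp only [Finset.mem_filter, Finset.mem_sdiff, Finset.mem_univ, true_and]
          exact ⟨fun h => h.2, fun h => ⟨fun hw => hno w hw h, h⟩⟩
        rw [h4]
        exact h3
  · intro t _
    exact alpha_le_one hd
  · intro t _ s _ _
    exact le_refl _

theorem alpha_le_three_quarters {d : ℕ} (hd : 4 ≤ d) : alpha d ≤ 3 / 4 := by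
  refine (alpha_anti hd).trans ?_
  unfold alpha
  norm_num

theorem alpha_le_fdeg {d k : ℕ} (hd : 4 ≤ d) (hk : 4 * k ≤ 3 * d + 2) : alpha d ≤ fdeg k := by
  by_cases hk2 : k ≤ 2
  · have h1 : fdeg k = 1 := by unfold fdeg; rw [if_pos hk2]
    rw [h1]
    exact alpha_le_one (by omega)
  · rw [fdeg_eq (by omega)]
    rcases Nat.even_or_odd d with ⟨a, ha⟩ | ⟨a, ha⟩
    · have h1 : d / 2 = a := by omega
      have h2 : (d + 1) / 2 = a := by omega
      rw [alpha, h1, h2]
      have h3 : (2 : ℝ) * k ≤ 3 * a + 1 := by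
        have : 2 * k ≤ 3 * a + 1 := by omega
        exact_mod_cast this
      rw [← add_div, div_le_div_iff₀ (by positivity) (by positivity)]
      linarith
    · have h1 : d / 2 = a := by omega
      have h2 : (d + 1) / 2 = a + 1 := by omega
      rw [alpha, h1, h2]
      have h3 : (2 : ℝ) * k ≤ 3 * a + 2 := by
        have : 2 * k ≤ 3 * a + 2 := by omega
        exact_mod_cast this
      have ha0 : (0 : ℝ) ≤ a := Nat.cast_nonneg a
      push_cast
      rw [div_add_div _ _ (by positivity) (by positivity),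
        div_le_div_iff₀ (by positivity) (by positivity)]
      nlinarith

open Classical in
theorem Mixed.sum_le [Fintype V] {G : SimpleGraph V} {d k : ℕ} {S : Finset V}
    (h : Mixed G d k S) (hd : 4 ≤ d) (hk : 4 * k ≤ 3 * d + 2) :
    alpha d * Fintype.card V ≤ ∑ _t ∈ Finset.univ \ S, alpha d +
      ∑ s ∈ S, fdeg ((S ∪ (Finset.univ \ S)).filter (fun w => G.Adj s w)).card := by
  have h1 : ∑ _s ∈ S, alpha d ≤
      ∑ s ∈ S, fdeg ((S ∪ (Finset.univ \ S)).filter (fun w => G.Adj s w)).card := by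
    refine Finset.sum_le_sum fun s hs => ?_
    exact (alpha_le_fdeg hd hk).trans (fdeg_anti (h.sdeg s hs _ fun w hw =>
      (Finset.mem_filter.1 hw).2))
  have h2 : ∑ _t ∈ Finset.univ \ S, alpha d + ∑ _s ∈ S, alpha d = ∑ _s : V, alpha d :=
    Finset.sum_sdiff (Finset.subset_univ S)
  have h3 : ∑ _s : V, alpha d = alpha d * Fintype.card V := by
    rw [Finset.sum_const, Finset.card_univ, nsmul_eq_mul, mul_comm]
  linarith

open Classical in
theorem Mixed.upper_model [Fintype V] {G : SimpleGraph V} {d k : ℕ} {S : Finset V}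
    (h : Mixed G d k S) (hd : 4 ≤ d) (hk : 4 * k ≤ 3 * d + 2) {r : ℕ} (hr : d + 3 ≤ r) :
    ∃ F : Finset V, ¬ Model G r (F : Set V) ∧ alpha d * Fintype.card V ≤ F.card := by
  obtain ⟨F, _, hF, hc⟩ := induct (fun J F => ¬ Model J r (F : Set V))
    (fun J J₁ F y => model_step (by omega) J J₁ F y) (Finset.univ \ S) d
    (alpha_le_three_quarters hd) 0 (by
      intro J β hinv
      obtain ⟨Y, hYT, hY, hsum⟩ := hinv.base.model hr
      refine ⟨Y, hYT, ?_, by rw [add_zero]; exact hsum⟩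
      intro hM
      refine hY (model_graph_mono (fun x hx y hy hxy => ?_) hM)
      exact ⟨hYT (by exact_mod_cast hx), hYT (by exact_mod_cast hy), hxy⟩) _ S G
    (fun _ => alpha d) rfl (h.inv (by omega))
  refine ⟨F, hF, ?_⟩
  have := h.sum_le hd hk
  linarith

open Classical in
theorem mixed_frag (d k : ℕ) (hd : 4 ≤ d) (hk : 4 * k ≤ 3 * d + 2) (ε : ℝ) (hε : 0 < ε) :
    ∃ C : ℕ, ∀ (V : Type) (_ : Fintype V) (G : SimpleGraph V) (S : Finset V), Mixed G d k S →
      ∃ Y : Finset V, (alpha d - ε) * Fintype.card V ≤ Y.card ∧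
        ∀ T : Set V, T ⊆ (Y : Set V) → (G.induce T).Connected → T.ncard ≤ C := by
  obtain ⟨L, hL⟩ := exists_nat_gt (2 / ε)
  have hL0 : (0 : ℝ) < L := lt_trans (by positivity) hL
  have hL1 : 1 ≤ L := by
    have : 0 < L := by exact_mod_cast hL0
    omega
  set t : ℕ := max (max d L) 2 with ht
  obtain ⟨a, ha⟩ := exists_nat_gt (6 * ((t : ℝ) + 1) / ε)
  have ha0 : (0 : ℝ) < a := lt_trans (by positivity) ha
  have ha1 : 1 ≤ a := by
    have : 0 < a := by exact_mod_cast ha0
    omega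
  refine ⟨a, fun V _ G S h => ?_⟩
  obtain ⟨F, _, hF, hc⟩ := induct (fun J F => TDs J t F)
    (fun J J₁ F y => tds_step (le_max_right _ _) J J₁ F y) (Finset.univ \ S) d
    (alpha_le_three_quarters hd) (((Finset.univ \ S).card : ℝ) * (1 / (L : ℝ))) (by
      intro J β hinv
      obtain ⟨Y, hYT, hY, hsum⟩ := hinv.base.tds (t := t) hL1
        ((le_max_left d L).trans (le_max_left _ _)) ((le_max_right d L).trans (le_max_left _ _))
      refine ⟨Y, hYT, ?_, ?_⟩
      · refine TDs_mono (G := inside J (Finset.univ \ S)) (G' := J) ?_ hY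
        intro x hx y hy hxy
        exact ⟨hYT hx, hYT hy, hxy⟩
      · rw [Finset.sum_sub_distrib, Finset.sum_const, nsmul_eq_mul] at hsum
        linarith) _ S G (fun _ => alpha d) rfl (h.inv (by omega))
  obtain ⟨S', hS', hcomp⟩ := TDs_fragment hF a ha1
  refine ⟨F \ S', ?_, ?_⟩
  · have h1 := h.sum_le hd hk
    have h2 : ((Finset.univ \ S).card : ℝ) ≤ Fintype.card V := by
      exact_mod_cast Finset.card_le_univ _
    have h3 : (F.card : ℝ) ≤ Fintype.card V := by exact_mod_cast Finset.card_le_univ _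
    have h4 : (F.card : ℝ) ≤ (F \ S').card + S'.card := by
      exact_mod_cast Finset.card_le_card_sdiff_add_card
    have h5 : (a : ℝ) * S'.card ≤ (t + 1) * (3 * F.card) := by exact_mod_cast hS'
    have h6 : (1 : ℝ) / L ≤ ε / 2 := by
      rw [div_le_div_iff₀ hL0 (by norm_num)]
      rw [div_lt_iff₀ hε] at hL
      linarith
    have h7 : ((Finset.univ \ S).card : ℝ) * (1 / (L : ℝ)) ≤ Fintype.card V * (ε / 2) :=
      mul_le_mul h2 h6 (by positivity) (by positivity)
    have h8 : (S'.card : ℝ) ≤ ε / 2 * Fintype.card V := by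
      rw [div_lt_iff₀ hε] at ha
      have h9 : (a : ℝ) * S'.card ≤ a * (ε / 2 * Fintype.card V) := by
        refine h5.trans ?_
        have h10 : ((t : ℝ) + 1) * (3 * F.card) ≤ ((t : ℝ) + 1) * (3 * Fintype.card V) := by
          gcongr
        have h11 : (0 : ℝ) ≤ Fintype.card V := by positivity
        nlinarith
      exact le_of_mul_le_mul_left h9 ha0
    nlinarith
  · intro T hT hconn
    refine hcomp T ?_ ?_ hconn
    · intro x hx
      have := hT hx
      rw [Finset.coe_sdiff] at this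
      exact this.1
    · rw [Set.disjoint_left]
      intro x hx hxS
      have := hT hx
      rw [Finset.coe_sdiff] at this
      exact this.2 hxS

end Pool.Agent.Helper762_MX
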