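import Pool.Agent.Helper762_MX.Base

set_option autoImplicit false

/-!
# The induction: removing and suppressing the vertices of `S`
-/

namespace Pool.Agent.Helper762_MX

open Finset Pool.Agent.Helper762_QL

variable {V : Type}

/-- the weight of a vertex of `S` of degree `k` -/
noncomputable def fdeg (k : ℕ) : ℝ := if k ≤ 2 then 1 else 3 / ((k : ℝ) + 1)

theorem fdeg_eq {k : ℕ} (h : 2 ≤ k) : fdeg k = 3 / ((k : ℝ) + 1) := by
  unfold fdeg
  split_ifs with h1
  · have : k = 2 := by omega
    rw [this]; norm_num
  · rfl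

theorem fdeg_le_one (k : ℕ) : fdeg k ≤ 1 := by
  unfold fdeg
  split_ifs with h
  · exact le_refl _
  · rw [div_le_one (by positivity)]
    have : (2 : ℝ) < k := by exact_mod_cast (not_le.1 h)
    linarith

theorem fdeg_anti {k l : ℕ} (h : k ≤ l) : fdeg l ≤ fdeg k := by
  by_cases hk : k ≤ 2
  · have : fdeg k = 1 := by unfold fdeg; rw [if_pos hk]
    rw [this]
    exact fdeg_le_one l
  · rw [fdeg_eq (k := k) (by omega), fdeg_eq (k := l) (by omega)]
    apply div_le_div_of_nonneg_left (by norm_num) (by positivity)
    have : (k : ℝ) ≤ l := by exact_mod_cast h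
    linarith

theorem fdeg_step {k D : ℕ} (h3 : 3 ≤ k) (hD : k ≤ D) :
    fdeg k + 3 / ((D : ℝ) * (D + 1)) ≤ fdeg (k - 1) := by
  obtain ⟨j, rfl⟩ : ∃ j, k = j + 1 := ⟨k - 1, by omega⟩
  rw [Nat.add_sub_cancel, fdeg_eq (k := j + 1) (by omega), fdeg_eq (k := j) (by omega)]
  have hj : (2 : ℝ) ≤ j := by exact_mod_cast (by omega : 2 ≤ j)
  have hjD : (j : ℝ) + 1 ≤ D := by exact_mod_cast hD
  have h1 : 3 / ((D : ℝ) * (D + 1)) ≤ 3 / (((j : ℝ) + 1) * (j + 1 + 1)) := by
    apply div_le_div_of_nonneg_left (by norm_num) (by positivity)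
    have h0 : (0 : ℝ) ≤ (j : ℝ) + 1 := by positivity
    nlinarith
  have h2 : 3 / ((((j + 1 : ℕ) : ℝ)) + 1) + 3 / (((j : ℝ) + 1) * (j + 1 + 1)) =
      3 / ((j : ℝ) + 1) := by
    push_cast
    have ha : (j : ℝ) + 1 ≠ 0 := by positivity
    have hb : (j : ℝ) + 1 + 1 ≠ 0 := by positivity
    field_simp
  linarith

open Classical in
/-- the condition on a vertex without neighbours in `S` -/
def Tq (J : SimpleGraph V) (T : Finset V) (b : ℝ) (t : V) : Prop :=
  (∀ x ∈ T, ∀ y ∈ T, ∀ z ∈ T, J.Adj t x → J.Adj t y → J.Adj t z → x ≠ y → x ≠ z → y ≠ z →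
    J.Adj x y ∨ J.Adj x z ∨ J.Adj y z) ∧
  ∃ φ : Finset V → ℝ, LocalIneq (inside J T) t φ ∧ b ≤ φ (T.filter (fun w => J.Adj t w))

theorem Tq_mono {J J₁ : SimpleGraph V} {T : Finset V} {b : ℝ} {t : V} (h : Tq J T b t)
    (hJ : ∀ x y, J.Adj x y → J₁.Adj x y) (ht : ∀ w ∈ T, J₁.Adj t w → J.Adj t w) :
    Tq J₁ T b t := by
  classical
  obtain ⟨h1, φ, h2, h3⟩ := h
  refine ⟨?_, φ, ?_, ?_⟩
  · intro x hx y hy z hz h4 h5 h6 hxy hxz hyz
    rcases h1 x hx y hy z hz (ht x hx h4) (ht y hy h5) (ht z hz h6) hxy hxz hyz with h | h | h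
    · exact Or.inl (hJ _ _ h)
    · exact Or.inr (Or.inl (hJ _ _ h))
    · exact Or.inr (Or.inr (hJ _ _ h))
  · intro s hs
    have hs' : ∀ w ∈ s, (inside J T).Adj t w := fun w hw =>
      ⟨(hs w hw).1, (hs w hw).2.1, ht w (hs w hw).2.1 (hs w hw).2.2⟩
    refine (h2 s hs').trans ?_
    have h4 : (if Clq (inside J T) s then (1 : ℝ) else 0) ≤
        (if Clq (inside J₁ T) s then (1 : ℝ) else 0) := by
      by_cases hc : Clq (inside J T) s
      · have hc' : Clq (inside J₁ T) s := fun x hx y hy hxy =>
          ⟨(hc x hx y hy hxy).1, (hc x hx y hy hxy).2.1, hJ _ _ (hc x hx y hy hxy).2.2⟩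
        rw [if_pos hc, if_pos hc']
      · rw [if_neg hc]
        split_ifs <;> norm_num
    gcongr
  · have h4 : T.filter (fun w => J₁.Adj t w) = T.filter (fun w => J.Adj t w) := by
      ext w
      simp only [Finset.mem_filter]
      exact ⟨fun h => ⟨h.1, ht w h.1 h.2⟩, fun h => ⟨h.1, hJ _ _ h.2⟩⟩
    rw [h4]
    exact h3

theorem Tq_two {J : SimpleGraph V} {T : Finset V} {t : V} (A B : Set V)
    (htT : t ∈ T)
    (hAB : ∀ w ∈ T, J.Adj t w → w ∈ A ∨ w ∈ B)
    (hAT : ∀ x ∈ A, x ∈ T) (hBT : ∀ x ∈ B, x ∈ T)
    (hA : ∀ x ∈ A, ∀ y ∈ A, x ≠ y → J.Adj x y) (hB : ∀ x ∈ B, ∀ y ∈ B, x ≠ y → J.Adj x y)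
    {b : ℝ} (hb : ∀ s : Finset V, (∀ w, w ∈ s ↔ w ∈ T ∧ J.Adj t w) → b ≤ phi2 A s) :
    Tq J T b t := by
  classical
  refine ⟨?_, phi2 A, ?_, ?_⟩
  · intro x hx y hy z hz h4 h5 h6 hxy hxz hyz
    rcases hAB x hx h4 with hx' | hx' <;> rcases hAB y hy h5 with hy' | hy' <;>
      rcases hAB z hz h6 with hz' | hz'
    · exact Or.inl (hA x hx' y hy' hxy)
    · exact Or.inl (hA x hx' y hy' hxy)
    · exact Or.inr (Or.inl (hA x hx' z hz' hxz))
    · exact Or.inr (Or.inr (hB y hy' z hz' hyz))
    · exact Or.inr (Or.inr (hA y hy' z hz' hyz))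
    · exact Or.inr (Or.inl (hB x hx' z hz' hxz))
    · exact Or.inl (hB x hx' y hy' hxy)
    · exact Or.inl (hB x hx' y hy' hxy)
  · refine phi2_local (inside J T) t A B ?_ ?_ ?_
    · intro w hw
      exact hAB w hw.2.1 hw.2.2
    · intro x hx y hy hxy
      exact ⟨hAT x hx, hAT y hy, hA x hx y hy hxy⟩
    · intro x hx y hy hxy
      exact ⟨hBT x hx, hBT y hy, hB x hx y hy hxy⟩
  · exact hb _ fun w => by rw [Finset.mem_filter]

theorem one_le_phi2_empty (s : Finset V) : 1 ≤ phi2 (∅ : Set V) s := by
  unfold phi2
  have h1 : ∀ i : DecidablePred (fun w => w ∈ (∅ : Set V)),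
      (@Finset.filter V (fun w => w ∈ (∅ : Set V)) i s).card = 0 := by
    intro i
    rw [Finset.card_eq_zero, Finset.filter_eq_empty_iff]
    intro w _ hw
    exact hw
  rw [h1]
  simp only [Nat.cast_zero, zero_add, div_one]
  exact le_add_of_nonneg_right (by positivity)

open Classical in
/-- the invariant -/
structure Inv (J : SimpleGraph V) (S T : Finset V) (d : ℕ) (β : V → ℝ) : Prop where
  disj : Disjoint S T
  tdeg : ∀ t ∈ T, ((S ∪ T).filter (fun w => J.Adj t w)).card ≤ d
  one : ∀ t ∈ T, ∀ s ∈ S, ∀ s' ∈ S, J.Adj t s → J.Adj t s' → s = s'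
  cl : ∀ t ∈ T, ∀ s ∈ S, J.Adj t s → ∀ x ∈ T, ∀ y ∈ T, J.Adj t x → J.Adj t y → x ≠ y →
    J.Adj x y
  ql : ∀ t ∈ T, (∀ s ∈ S, ¬ J.Adj t s) → Tq J T (β t) t
  le1 : ∀ t ∈ T, β t ≤ 1
  leα : ∀ t ∈ T, ∀ s ∈ S, J.Adj t s → β t ≤ alpha d

/-- the graph `J` with a clique on `N` added -/
def fill (J : SimpleGraph V) (N : Finset V) : SimpleGraph V where
  Adj a b := J.Adj a b ∨ (a ≠ b ∧ a ∈ N ∧ b ∈ N)
  symm := ⟨fun _ _ h => h.imp (fun h => h.symm) fun h => ⟨h.1.symm, h.2.2, h.2.1⟩⟩
  loopless := ⟨fun _ h => h.elim (fun h => h.ne rfl) fun h => h.1 rfl⟩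

open Classical in
/-- suppressing a vertex of `S` of degree at most two keeps the invariant -/
theorem Inv.suppress {J : SimpleGraph V} {S T : Finset V} {d : ℕ} {β : V → ℝ}
    (h : Inv J S T d β) {y : V} (hy : y ∈ S) {N : Finset V}
    (hN : ∀ w, w ∈ N ↔ w ∈ S ∪ T ∧ J.Adj y w) (hc : N.card ≤ 2) :
    Inv (fill J N) (S.erase y) T d β := by
  have hyT : y ∉ T := fun h' => Finset.disjoint_left.1 h.disj hy h'
  have hyN : y ∉ N := fun h' => ((hN y).1 h').2.ne rfl
  have hmono : ∀ a b, J.Adj a b → (fill J N).Adj a b := fun a b h => Or.inl h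
  -- the other neighbour
  have huniq : ∀ t ∈ N, ∀ a ∈ N, ∀ b ∈ N, a ≠ t → b ≠ t → a = b := by
    intro t ht a ha b hb hat hbt
    by_contra hab
    have hsub : ({t, a, b} : Finset V) ⊆ N := by
      intro x hx
      simp only [Finset.mem_insert, Finset.mem_singleton] at hx
      rcases hx with rfl | rfl | rfl <;> assumption
    have h3 : ({t, a, b} : Finset V).card = 3 := by
      rw [Finset.card_insert_of_notMem, Finset.card_pair hab]
      simp only [Finset.mem_insert, Finset.mem_singleton, not_or]
      exact ⟨hat.symm, hbt.symm⟩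
    have := Finset.card_le_card hsub
    omega
  have hnot : ∀ t, t ∉ N → ∀ w, (fill J N).Adj t w → J.Adj t w := by
    intro t ht w hw
    rcases hw with hw | hw
    · exact hw
    · exact absurd hw.2.1 ht
  constructor
  · exact Finset.disjoint_of_subset_left (Finset.erase_subset _ _) h.disj
  · -- degrees
    intro t ht
    by_cases htN : t ∈ N
    · have hty : J.Adj t y := ((hN t).1 htN).2.symm
      have hsub : ((S.erase y ∪ T).filter (fun w => (fill J N).Adj t w)) ⊆
          (((S ∪ T).filter (fun w => J.Adj t w)).erase y) ∪ (N.erase t) := by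
        intro w hw
        rw [Finset.mem_filter, Finset.mem_union, Finset.mem_erase] at hw
        rw [Finset.mem_union, Finset.mem_erase, Finset.mem_erase, Finset.mem_filter,
          Finset.mem_union]
        have hwy : w ≠ y := by
          rintro rfl
          rcases hw.1 with h' | h'
          · exact h'.1 rfl
          · exact hyT h'
        rcases hw.2 with h' | h'
        · left
          exact ⟨hwy, hw.1.imp (fun h => h.2) id, h'⟩
        · right
          exact ⟨h'.1.symm, h'.2.2⟩
      have h1 := Finset.card_le_card hsub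
      have h2 := Finset.card_union_le (((S ∪ T).filter (fun w => J.Adj t w)).erase y) (N.erase t)
      have hymem : y ∈ (S ∪ T).filter (fun w => J.Adj t w) := by
        rw [Finset.mem_filter, Finset.mem_union]
        exact ⟨Or.inl hy, hty⟩
      rw [Finset.card_erase_of_mem hymem, Finset.card_erase_of_mem htN] at h2
      have h3 := h.tdeg t ht
      have h4 : 1 ≤ ((S ∪ T).filter (fun w => J.Adj t w)).card :=
        Finset.card_pos.2 ⟨y, hymem⟩
      omega
    · refine le_trans (Finset.card_le_card ?_) (h.tdeg t ht)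
      intro w hw
      rw [Finset.mem_filter, Finset.mem_union, Finset.mem_erase] at hw
      rw [Finset.mem_filter, Finset.mem_union]
      exact ⟨hw.1.imp (fun h => h.2) id, hnot t htN w hw.2⟩
  · -- at most one neighbour in `S`
    intro t ht s hs s' hs' hts hts'
    rw [Finset.mem_erase] at hs hs'
    by_cases htN : t ∈ N
    · have hty : J.Adj t y := ((hN t).1 htN).2.symm
      have key : ∀ s, s ≠ y ∧ s ∈ S → (fill J N).Adj t s → s ∈ N ∧ s ≠ t := by
        intro s hs hts
        rcases hts with h' | h'
        · exact absurd (h.one t ht s hs.2 y hy h' hty) hs.1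
        · exact ⟨h'.2.2, h'.1.symm⟩
      obtain ⟨h1, h2⟩ := key s hs hts
      obtain ⟨h3, h4⟩ := key s' hs' hts'
      exact huniq t htN s h1 s' h3 h2 h4
    · exact h.one t ht s hs.2 s' hs'.2 (hnot t htN s hts) (hnot t htN s' hts')
  · -- the clique condition
    intro t ht s hs hts x hx z hz htx htz hxz
    rw [Finset.mem_erase] at hs
    by_cases htN : t ∈ N
    · have hty : J.Adj t y := ((hN t).1 htN).2.symm
      have hsN : s ∈ N ∧ s ≠ t := by
        rcases hts with h' | h'
        · exact absurd (h.one t ht s hs.2 y hy h' hty) hs.1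
        · exact ⟨h'.2.2, h'.1.symm⟩
      have key : ∀ x ∈ T, (fill J N).Adj t x → J.Adj t x := by
        intro x hx htx
        rcases htx with h' | h'
        · exact h'
        · exfalso
          have : x = s := huniq t htN x h'.2.2 s hsN.1 h'.1.symm hsN.2
          rw [this] at hx
          exact Finset.disjoint_left.1 h.disj hs.2 hx
      exact hmono _ _ (h.cl t ht y hy hty x hx z hz (key x hx htx) (key z hz htz) hxz)
    · exact hmono _ _ (h.cl t ht s hs.2 (hnot t htN s hts) x hx z hz (hnot t htN x htx)
        (hnot t htN z htz) hxz)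
  · -- vertices without neighbours in `S`
    intro t ht hno
    by_cases htN : t ∈ N
    · have hty : J.Adj t y := ((hN t).1 htN).2.symm
      have hclq := h.cl t ht y hy hty
      have hbeta := h.leα t ht y hy hty
      refine Tq_two {w | w ∈ N ∧ w ≠ t} {w | w ∈ T ∧ J.Adj t w} ht ?_ ?_ ?_ ?_ ?_ ?_
      · intro w hw htw
        rcases htw with h' | h'
        · exact Or.inr ⟨hw, h'⟩
        · exact Or.inl ⟨h'.2.2, h'.1.symm⟩
      · rintro w ⟨hwN, hwt⟩
        have hw := ((hN w).1 hwN).1
        rw [Finset.mem_union] at hw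
        rcases hw with hw | hw
        · exfalso
          refine hno w (Finset.mem_erase.2 ⟨fun h' => hyN (h' ▸ hwN), hw⟩) ?_
          exact Or.inr ⟨hwt.symm, htN, hwN⟩
        · exact hw
      · rintro w ⟨hw, _⟩
        exact hw
      · rintro a ⟨ha, hat⟩ b ⟨hb, hbt⟩ hab
        exact absurd (huniq t htN a ha b hb hat hbt) hab
      · rintro a ⟨ha, hat⟩ b ⟨hb, hbt⟩ hab
        exact hmono _ _ (hclq a ha b hb hat hbt hab)
      · intro s hs
        refine hbeta.trans (phi2_bound _ _ ?_)
        -- the degree
        have hsub : s ⊆ (((S ∪ T).filter (fun w => J.Adj t w)).erase y) ∪ (N.erase t) := by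
          intro w hw
          rw [hs] at hw
          rw [Finset.mem_union, Finset.mem_erase, Finset.mem_erase, Finset.mem_filter,
            Finset.mem_union]
          rcases hw.2 with h' | h'
          · left
            exact ⟨fun h' => hyT (h' ▸ hw.1), Or.inr hw.1, h'⟩
          · right
            exact ⟨h'.1.symm, h'.2.2⟩
        have h1 := Finset.card_le_card hsub
        have h2 := Finset.card_union_le (((S ∪ T).filter (fun w => J.Adj t w)).erase y)
          (N.erase t)
        have hymem : y ∈ (S ∪ T).filter (fun w => J.Adj t w) := by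
          rw [Finset.mem_filter, Finset.mem_union]
          exact ⟨Or.inl hy, hty⟩
        rw [Finset.card_erase_of_mem hymem, Finset.card_erase_of_mem htN] at h2
        have h3 := h.tdeg t ht
        have h4 : 1 ≤ ((S ∪ T).filter (fun w => J.Adj t w)).card :=
          Finset.card_pos.2 ⟨y, hymem⟩
        omega
    · have hno' : ∀ s ∈ S, ¬ J.Adj t s := by
        intro s hs hts
        by_cases hsy : s = y
        · subst hsy
          exact htN ((hN t).2 ⟨Finset.mem_union_right _ ht, hts.symm⟩)
        · exact hno s (Finset.mem_erase.2 ⟨hsy, hs⟩) (hmono _ _ hts)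
      exact Tq_mono (h.ql t ht hno') hmono fun w _ hw => hnot t htN w hw
  · exact h.le1
  · intro t ht s hs hts
    rw [Finset.mem_erase] at hs
    by_cases htN : t ∈ N
    · exact h.leα t ht y hy ((hN t).1 htN).2.symm
    · exact h.leα t ht s hs.2 (hnot t htN s hts)

open Classical in
/-- removing a vertex of `S` keeps the invariant, with new weights -/
theorem Inv.remove {J : SimpleGraph V} {S T : Finset V} {d : ℕ} {β : V → ℝ}
    (h : Inv J S T d β) {y : V} (hy : y ∈ S) :
    Inv J (S.erase y) T d (fun t => if J.Adj y t then 1 else β t) := by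
  constructor
  · exact Finset.disjoint_of_subset_left (Finset.erase_subset _ _) h.disj
  · intro t ht
    refine le_trans (Finset.card_le_card ?_) (h.tdeg t ht)
    refine Finset.filter_subset_filter _ ?_
    exact Finset.union_subset_union (Finset.erase_subset _ _) (Finset.Subset.refl _)
  · intro t ht s hs s' hs'
    exact h.one t ht s (Finset.mem_of_mem_erase hs) s' (Finset.mem_of_mem_erase hs')
  · intro t ht s hs
    exact h.cl t ht s (Finset.mem_of_mem_erase hs)
  · intro t ht hno
    by_cases hyt : J.Adj y t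
    · have hclq := h.cl t ht y hy hyt.symm
      have hval : (if J.Adj y t then (1 : ℝ) else β t) = 1 := if_pos hyt
      simp only [hval]
      refine Tq_two ∅ {w | w ∈ T ∧ J.Adj t w} ht ?_ ?_ ?_ ?_ ?_ ?_
      · intro w hw htw
        exact Or.inr ⟨hw, htw⟩
      · intro x hx; exact absurd hx (Set.notMem_empty _)
      · rintro w ⟨hw, _⟩
        exact hw
      · intro x hx; exact absurd hx (Set.notMem_empty _)
      · rintro a ⟨ha, hat⟩ b ⟨hb, hbt⟩ hab
        exact hclq a ha b hb hat hbt hab
      · intro s _
        exact one_le_phi2_empty s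
    · have hval : (if J.Adj y t then (1 : ℝ) else β t) = β t := if_neg hyt
      simp only [hval]
      refine h.ql t ht ?_
      intro s hs hts
      by_cases hsy : s = y
      · subst hsy; exact hyt hts.symm
      · exact hno s (Finset.mem_erase.2 ⟨hsy, hs⟩) hts
  · intro t ht
    split_ifs
    · exact le_refl _
    · exact h.le1 t ht
  · intro t ht s hs hts
    rw [Finset.mem_erase] at hs
    have hyt : ¬ J.Adj y t := fun h' => hs.1 (h.one t ht s hs.2 y hy hts h'.symm)
    rw [if_neg hyt]
    exact h.leα t ht s hs.2 hts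

open Classical in
/-- **The induction.** -/
theorem induct (P : SimpleGraph V → Finset V → Prop)
    (hP : ∀ (J J₁ : SimpleGraph V) (F : Finset V) (y : V),
      (∀ a b, J.Adj a b → J₁.Adj a b) → y ∉ F →
      (∀ a ∈ F, ∀ b ∈ F, J₁.Adj y a → J₁.Adj y b → a ≠ b → J₁.Adj a b) →
      (F.filter (fun w => J₁.Adj y w)).card ≤ 2 → P J₁ F → P J (insert y F))
    (T : Finset V) (d : ℕ) (hd : alpha d ≤ 3 / 4) (η : ℝ)
    (hbase : ∀ (J : SimpleGraph V) (β : V → ℝ), Inv J ∅ T d β →
      ∃ F ⊆ T, P J F ∧ ∑ t ∈ T, β t ≤ (F.card : ℝ) + η) :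
    ∀ (m : ℕ) (S : Finset V) (J : SimpleGraph V) (β : V → ℝ), S.card = m → Inv J S T d β →
      ∃ F ⊆ S ∪ T, P J F ∧ ∑ t ∈ T, β t +
        ∑ s ∈ S, fdeg ((S ∪ T).filter (fun w => J.Adj s w)).card ≤ (F.card : ℝ) + η := by
  intro m
  induction m with
  | zero =>
    intro S J β hS h
    rw [Finset.card_eq_zero] at hS
    subst hS
    obtain ⟨F, hF, hPF, hc⟩ := hbase J β h
    exact ⟨F, by rwa [Finset.empty_union], hPF, by simpa using hc⟩
  | succ m ih =>
    intro S J β hS h
    let D : V → ℕ := fun s => ((S ∪ T).filter (fun w => J.Adj s w)).card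
    by_cases hlow : ∃ y ∈ S, D y ≤ 2
    · -- suppression
      obtain ⟨y, hy, hDy⟩ := hlow
      set N := (S ∪ T).filter (fun w => J.Adj y w) with hN
      have hNmem : ∀ w, w ∈ N ↔ w ∈ S ∪ T ∧ J.Adj y w := fun w => by
        rw [hN, Finset.mem_filter]
      have hyT : y ∉ T := fun h' => Finset.disjoint_left.1 h.disj hy h'
      have hyN : y ∉ N := fun h' => ((hNmem y).1 h').2.ne rfl
      have hinv := h.suppress hy hNmem hDy
      obtain ⟨F, hF, hPF, hc⟩ := ih (S.erase y) (fill J N) β
        (by rw [Finset.card_erase_of_mem hy, hS]; rfl) hinv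
      have hyF : y ∉ F := by
        intro h'
        have := hF h'
        rw [Finset.mem_union, Finset.mem_erase] at this
        rcases this with h1 | h1
        · exact h1.1 rfl
        · exact hyT h1
      have hFW : ∀ a ∈ F, a ∈ S ∪ T := by
        intro a ha
        have := hF ha
        rw [Finset.mem_union, Finset.mem_erase] at this
        rw [Finset.mem_union]
        exact this.imp (fun h => h.2) id
      have hadjN : ∀ a ∈ F, (fill J N).Adj y a → a ∈ N := by
        intro a ha hya
        rcases hya with h' | h'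
        · exact (hNmem a).2 ⟨hFW a ha, h'⟩
        · exact absurd h'.2.1 hyN
      refine ⟨insert y F, ?_, ?_, ?_⟩
      · rw [Finset.insert_subset_iff]
        exact ⟨Finset.mem_union_left _ hy, fun a ha => hFW a ha⟩
      · refine hP J (fill J N) F y (fun a b h => Or.inl h) hyF ?_ ?_ hPF
        · intro a ha b hb hya hyb hab
          exact Or.inr ⟨hab, hadjN a ha hya, hadjN b hb hyb⟩
        · refine le_trans (Finset.card_le_card ?_) hDy
          intro a ha
          rw [Finset.mem_filter] at ha
          exact hadjN a ha.1 ha.2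
      · rw [Finset.card_insert_of_notMem hyF]
        have h1 : ∑ s ∈ S.erase y, fdeg (D s) ≤ ∑ s ∈ S.erase y,
            fdeg ((S.erase y ∪ T).filter (fun w => (fill J N).Adj s w)).card := by
          refine Finset.sum_le_sum fun s hs => fdeg_anti ?_
          rw [Finset.mem_erase] at hs
          by_cases hsN : s ∈ N
          · have hsy : J.Adj s y := ((hNmem s).1 hsN).2.symm
            have hsub : ((S.erase y ∪ T).filter (fun w => (fill J N).Adj s w)) ⊆
                (((S ∪ T).filter (fun w => J.Adj s w)).erase y) ∪ (N.erase s) := by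
              intro w hw
              rw [Finset.mem_filter, Finset.mem_union, Finset.mem_erase] at hw
              rw [Finset.mem_union, Finset.mem_erase, Finset.mem_erase, Finset.mem_filter,
                Finset.mem_union]
              have hwy : w ≠ y := by
                rintro rfl
                rcases hw.1 with h' | h'
                · exact h'.1 rfl
                · exact hyT h'
              rcases hw.2 with h' | h'
              · left
                exact ⟨hwy, hw.1.imp (fun h => h.2) id, h'⟩
              · right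
                exact ⟨h'.1.symm, h'.2.2⟩
            have h1 := Finset.card_le_card hsub
            have h2 := Finset.card_union_le (((S ∪ T).filter (fun w => J.Adj s w)).erase y)
              (N.erase s)
            have hymem : y ∈ (S ∪ T).filter (fun w => J.Adj s w) := by
              rw [Finset.mem_filter, Finset.mem_union]
              exact ⟨Or.inl hy, hsy⟩
            rw [Finset.card_erase_of_mem hymem, Finset.card_erase_of_mem hsN] at h2
            have h4 : 1 ≤ ((S ∪ T).filter (fun w => J.Adj s w)).card :=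
              Finset.card_pos.2 ⟨y, hymem⟩
            have h5 : N.card ≤ 2 := hDy
            have h6 : D s = ((S ∪ T).filter (fun w => J.Adj s w)).card := rfl
            omega
          · refine Finset.card_le_card ?_
            intro w hw
            rw [Finset.mem_filter, Finset.mem_union, Finset.mem_erase] at hw
            rw [Finset.mem_filter, Finset.mem_union]
            refine ⟨hw.1.imp (fun h => h.2) id, ?_⟩
            rcases hw.2 with h' | h'
            · exact h'
            · exact absurd h'.2.1 hsN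
        have h2 : ∑ s ∈ S, fdeg (D s) = fdeg (D y) + ∑ s ∈ S.erase y, fdeg (D s) :=
          (Finset.add_sum_erase S (fun s => fdeg (D s)) hy).symm
        have h3 := fdeg_le_one (D y)
        have h4 : ∑ s ∈ S, fdeg ((S ∪ T).filter (fun w => J.Adj s w)).card =
          ∑ s ∈ S, fdeg (D s) := rfl
        rw [h4, h2]
        push_cast
        linarith
    · -- removal of a vertex of maximum degree
      push Not at hlow
      obtain ⟨y, hy, hmax⟩ := Finset.exists_max_image S D (by
        rw [← Finset.card_pos, hS]; omega)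
      set N := (S ∪ T).filter (fun w => J.Adj y w) with hN
      have hyT : y ∉ T := fun h' => Finset.disjoint_left.1 h.disj hy h'
      have hDy : 3 ≤ D y := hlow y hy
      obtain ⟨F, hF, hPF, hc⟩ := ih (S.erase y) J _
        (by rw [Finset.card_erase_of_mem hy, hS]; rfl) (h.remove hy)
      refine ⟨F, hF.trans (Finset.union_subset_union (Finset.erase_subset _ _)
        (Finset.Subset.refl _)), hPF, ?_⟩
      have hδ : (3 : ℝ) ≤ D y := by exact_mod_cast hDy
      set c : ℝ := 3 / ((D y : ℝ) * (D y + 1)) with hcdef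
      have hc0 : 0 ≤ c := by rw [hcdef]; positivity
      have hc4 : c ≤ 1 / 4 := by
        rw [hcdef, div_le_div_iff₀ (by positivity) (by norm_num)]
        nlinarith
      -- the gain in `T`
      have hT : ∑ t ∈ T, β t + c * ((T.filter (fun w => J.Adj y w)).card : ℝ) ≤
          ∑ t ∈ T, (if J.Adj y t then 1 else β t) := by
        have h1 : ∀ t ∈ T, β t + (if J.Adj y t then c else 0) ≤
            (if J.Adj y t then 1 else β t) := by
          intro t ht
          split_ifs with hyt
          · have := h.leα t ht y hy hyt.symm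
            linarith
          · linarith
        have h2 := Finset.sum_le_sum h1
        rw [Finset.sum_add_distrib, ← Finset.sum_filter, Finset.sum_const, nsmul_eq_mul] at h2
        linarith
      -- the gain in `S`
      have hSg : ∑ s ∈ S.erase y, fdeg (D s) + c * ((S.filter (fun w => J.Adj y w)).card : ℝ) ≤
          ∑ s ∈ S.erase y, fdeg ((S.erase y ∪ T).filter (fun w => J.Adj s w)).card := by
        have h1 : ∀ s ∈ S.erase y, fdeg (D s) + (if J.Adj y s then c else 0) ≤
            fdeg ((S.erase y ∪ T).filter (fun w => J.Adj s w)).card := by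
          intro s hs
          rw [Finset.mem_erase] at hs
          split_ifs with hys
          · have h2 : ((S.erase y ∪ T).filter (fun w => J.Adj s w)) ⊆
                ((S ∪ T).filter (fun w => J.Adj s w)).erase y := by
              intro w hw
              rw [Finset.mem_filter, Finset.mem_union, Finset.mem_erase] at hw
              rw [Finset.mem_erase, Finset.mem_filter, Finset.mem_union]
              refine ⟨?_, hw.1.imp (fun h => h.2) id, hw.2⟩
              rintro rfl
              rcases hw.1 with h' | h'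
              · exact h'.1 rfl
              · exact hyT h'
            have h3 := Finset.card_le_card h2
            have hymem : y ∈ (S ∪ T).filter (fun w => J.Adj s w) := by
              rw [Finset.mem_filter, Finset.mem_union]
              exact ⟨Or.inl hy, hys.symm⟩
            rw [Finset.card_erase_of_mem hymem] at h3
            exact (fdeg_step (hlow s hs.2) (hmax s hs.2)).trans (fdeg_anti h3)
          · rw [add_zero]
            refine fdeg_anti (Finset.card_le_card ?_)
            refine Finset.filter_subset_filter _ ?_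
            exact Finset.union_subset_union (Finset.erase_subset _ _) (Finset.Subset.refl _)
        have h2 := Finset.sum_le_sum h1
        rw [Finset.sum_add_distrib, ← Finset.sum_filter, Finset.sum_const, nsmul_eq_mul] at h2
        have h3 : (S.erase y).filter (fun w => J.Adj y w) = S.filter (fun w => J.Adj y w) := by
          ext w
          simp only [Finset.mem_filter, Finset.mem_erase]
          exact ⟨fun h => ⟨h.1.2, h.2⟩, fun h => ⟨⟨fun hwy => by
            rw [hwy] at h; exact h.2.ne rfl, h.1⟩, h.2⟩⟩
        rw [h3] at h2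
        linarith
      have hcard : (D y : ℝ) = (S.filter (fun w => J.Adj y w)).card +
          (T.filter (fun w => J.Adj y w)).card := by
        have h1 : D y = (S.filter (fun w => J.Adj y w)).card +
            (T.filter (fun w => J.Adj y w)).card := by
          show ((S ∪ T).filter (fun w => J.Adj y w)).card = _
          rw [Finset.filter_union, Finset.card_union_of_disjoint]
          exact Finset.disjoint_filter_filter h.disj
        exact_mod_cast h1
      have hfy : fdeg (D y) = c * D y := by
        rw [fdeg_eq (by omega), hcdef]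
        have h1 : (D y : ℝ) ≠ 0 := by positivity
        field_simp
      have h2 : ∑ s ∈ S, fdeg (D s) = fdeg (D y) + ∑ s ∈ S.erase y, fdeg (D s) :=
        (Finset.add_sum_erase S (fun s => fdeg (D s)) hy).symm
      have h4 : ∑ s ∈ S, fdeg ((S ∪ T).filter (fun w => J.Adj s w)).card =
        ∑ s ∈ S, fdeg (D s) := rfl
      rw [h4, h2, hfy, hcard]
      nlinarith

end Pool.Agent.Helper762_MX
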