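import Pool.Agent.Helper762_QL.Minor

set_option autoImplicit false

/-!
# Tools for the mixed class: monotonicity in the graph, tree decompositions
-/

namespace Pool.Agent.Helper762_MX

open Finset Pool.Agent.Helper762_QL

variable {V : Type}

theorem rch_graph_mono {G G' : SimpleGraph V} {T : Set V}
    (h : ∀ x ∈ T, ∀ y ∈ T, G.Adj x y → G'.Adj x y) {a b : V} (hr : Rch G T a b) :
    Rch G' T a b := by
  induction hr with
  | refl => exact Rch.rfl'
  | tail _ hbc ih => exact ih.trans (Rch.adj hbc.1 hbc.2.1 (h _ hbc.1 _ hbc.2.1 hbc.2.2))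

theorem conn_graph_mono {G G' : SimpleGraph V} {T : Set V}
    (h : ∀ x ∈ T, ∀ y ∈ T, G.Adj x y → G'.Adj x y) (hc : (G.induce T).Connected) :
    (G'.induce T).Connected := by
  rw [conn_iff] at hc ⊢
  exact ⟨hc.1, fun x hx y hy => rch_graph_mono h (hc.2 x hx y hy)⟩

theorem model_graph_mono {G G' : SimpleGraph V} {r : ℕ} {Y : Set V}
    (h : ∀ x ∈ Y, ∀ y ∈ Y, G.Adj x y → G'.Adj x y) (hM : Model G r Y) : Model G' r Y := by
  obtain ⟨f, h1, h2, h3, h4⟩ := hM
  refine ⟨f, h1, fun i => conn_graph_mono (fun x hx y hy => h x (h1 i hx) y (h1 i hy)) (h2 i),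
    h3, ?_⟩
  intro i j hij
  obtain ⟨u, hu, v, hv, huv⟩ := h4 i j hij
  exact ⟨u, hu, v, hv, h u (h1 i hu) v (h1 j hv) huv⟩

theorem TDs_mono {G G' : SimpleGraph V} {t : ℕ} {Z : Finset V}
    (h : ∀ x ∈ Z, ∀ y ∈ Z, G'.Adj x y → G.Adj x y) (hT : TDs G t Z) : TDs G' t Z := by
  obtain ⟨T, par, bag, h1, h2, h3, h4, h5⟩ := hT
  refine ⟨T, par, bag, h1, h2, h3, h4, ?_⟩
  intro K hK hKc
  exact h5 K hK fun x hx y hy hxy => h x (hK hx) y (hK hy) (hKc x hx y hy hxy)

/-- a small part without edges to the rest is added as one bag -/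
theorem TDs_append [DecidableEq V] {G : SimpleGraph V} {t : ℕ} {Z : Finset V} (h : TDs G t Z)
    {U : Finset V} (hd : Disjoint U Z) (hno : ∀ u ∈ U, ∀ z ∈ Z, ¬ G.Adj u z)
    (hcard : U.card ≤ t + 1) : TDs G t (U ∪ Z) := by
  classical
  obtain ⟨T, par, bag, h1, h2, h3, h4, h5⟩ := h
  refine ⟨T + 1, Fin.snoc (α := fun _ => Fin (T + 1 + 1)) (fun i => (par i).castSucc) 0,
    Fin.snoc (α := fun _ => Finset V) bag U, ?_, ?_, ?_, ?_, ?_⟩
  · intro i
    refine Fin.lastCases ?_ ?_ i
    · intro _
      rw [Fin.snoc_last]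
      exact Fin.last_pos
    · intro j hj
      rw [Fin.snoc_castSucc]
      refine Fin.castSucc_lt_castSucc_iff.2 (h1 j ?_)
      exact hj
  · intro i
    refine Fin.lastCases ?_ ?_ i
    · rw [Fin.snoc_last]
      exact hcard
    · intro j
      rw [Fin.snoc_castSucc]
      exact h2 j
  · intro i
    refine Fin.lastCases ?_ ?_ i
    · rw [Fin.snoc_last]
      exact Finset.subset_union_left
    · intro j
      rw [Fin.snoc_castSucc]
      exact (h3 j).trans Finset.subset_union_right
  · intro w hw
    rw [Finset.mem_union] at hw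
    have hz : (0 : Fin (T + 1 + 1)) = (0 : Fin (T + 1)).castSucc := (Fin.castSucc_zero).symm
    rcases hw with hw | hw
    · have hwZ : w ∉ Z := fun h => Finset.disjoint_left.1 hd hw h
      refine ⟨Fin.last _, ⟨?_, ?_⟩, ?_⟩
      · simp only [Fin.snoc_last]
        exact hw
      · right
        simp only [Fin.snoc_last]
        rw [hz, Fin.snoc_castSucc]
        exact fun h => hwZ (h3 _ h)
      · intro j
        refine Fin.lastCases ?_ ?_ j
        · intro _; rfl
        · rintro i ⟨hi, _⟩
          simp only [Fin.snoc_castSucc] at hi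
          exact absurd (h3 _ hi) hwZ
    · have hwU : w ∉ U := fun h => Finset.disjoint_left.1 hd h hw
      obtain ⟨i, ⟨hi1, hi2⟩, hi3⟩ := h4 w hw
      refine ⟨i.castSucc, ⟨?_, ?_⟩, ?_⟩
      · simp only [Fin.snoc_castSucc]
        exact hi1
      · simp only [Fin.snoc_castSucc]
        rcases hi2 with h | h
        · left; rw [h]; rfl
        · right; exact h
      · intro j
        refine Fin.lastCases ?_ ?_ j
        · rintro ⟨hj1, _⟩
          exfalso
          simp only [Fin.snoc_last] at hj1
          exact hwU hj1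
        · rintro k ⟨hk1, hk2⟩
          simp only [Fin.snoc_castSucc] at hk1 hk2
          congr 1
          apply hi3
          refine ⟨hk1, ?_⟩
          rcases hk2 with h | h
          · left
            exact Fin.castSucc_injective _ (h.trans (Fin.castSucc_zero).symm)
          · exact Or.inr h
  · intro K hK hKc
    by_cases hKU : K ⊆ U
    · exact ⟨Fin.last _, by rw [Fin.snoc_last]; exact hKU⟩
    · have hKZ : K ⊆ Z := by
        obtain ⟨a, ha, haU⟩ := Finset.not_subset.1 hKU
        have haZ : a ∈ Z := (Finset.mem_union.1 (hK ha)).resolve_left haU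
        intro b hb
        rcases Finset.mem_union.1 (hK hb) with h | h
        · by_cases hab : b = a
          · rw [hab]; exact haZ
          · exact absurd (hKc b hb a ha hab) (hno b h a haZ)
        · exact h
      obtain ⟨i, hi⟩ := h5 K hKZ hKc
      exact ⟨i.castSucc, by rw [Fin.snoc_castSucc]; exact hi⟩

/-- an elimination set without edges to the rest can be added -/
theorem TDs_union_elim [DecidableEq V] {G : SimpleGraph V} {t : ℕ}
    (hdeg : ∀ v, ∀ N : Finset V, (∀ w ∈ N, G.Adj v w) → N.card ≤ t) {Z : Finset V}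
    (h : TDs G t Z) {U : Finset V} (hU : Elim G U) :
    Disjoint U Z → (∀ u ∈ U, ∀ z ∈ Z, ¬ G.Adj u z) → TDs G t (U ∪ Z) := by
  classical
  induction hU with
  | empty => intro _ _; rwa [Finset.empty_union]
  | insert X v hv hX hc ih =>
    intro hd hno
    rw [Finset.disjoint_insert_left] at hd
    have h1 := ih hd.2 (fun u hu => hno u (Finset.mem_insert_of_mem hu))
    rw [Finset.insert_union]
    refine h1.insert (by rw [Finset.mem_union, not_or]; exact ⟨hv, hd.1⟩)
      (N := (X ∪ Z).filter (fun w => G.Adj v w)) (fun w => by rw [Finset.mem_filter]) ?_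
      (hdeg v _ fun w hw => (Finset.mem_filter.1 hw).2)
    have hX' : ∀ w ∈ (X ∪ Z).filter (fun w => G.Adj v w), w ∈ X ∧ G.Adj v w := by
      intro w hw
      rw [Finset.mem_filter, Finset.mem_union] at hw
      refine ⟨hw.1.resolve_right fun hz => ?_, hw.2⟩
      exact hno v (Finset.mem_insert_self _ _) w hz hw.2
    intro x hx y hy hxy
    exact hc x (hX' x hx).1 y (hX' y hy).1 (hX' x hx).2 (hX' y hy).2 hxy

/-- fragmentation -/
theorem TDs_fragment [Fintype V] [DecidableEq V] {G : SimpleGraph V} {t : ℕ} {X : Finset V}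
    (h : TDs G t X) (a : ℕ) (ha : 1 ≤ a) :
    ∃ S : Finset V, a * S.card ≤ (t + 1) * (3 * X.card) ∧
      ∀ T : Set V, T ⊆ (X : Set V) → Disjoint T (S : Set V) → (G.induce T).Connected →
        T.ncard ≤ a := by
  classical
  have hX : TDs (inside G X) t X := TDs_mono (fun x _ y _ hxy => hxy.2.2) h
  have hall : ∀ D : Finset V, Disjoint D X → TDs (inside G X) t (D ∪ X) := by
    intro D
    induction D using Finset.induction_on with
    | empty => intro _; rw [Finset.empty_union]; exact hX
    | insert v D hv ih =>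
      intro hD
      rw [Finset.disjoint_insert_left] at hD
      rw [Finset.insert_union]
      refine (ih hD.2).insert (by rw [Finset.mem_union, not_or]; exact ⟨hv, hD.1⟩) (N := ∅)
        (fun w => ?_) (fun x hx => by simp at hx) (by simp)
      simp only [Finset.notMem_empty, false_iff, not_and]
      exact fun _ hvw => hD.1 hvw.1
  have huniv : TDs (inside G X) t (Finset.univ : Finset V) := by
    have h1 := hall (Finset.univ \ X) Finset.sdiff_disjoint
    rwa [Finset.sdiff_union_of_subset (Finset.subset_univ X)] at h1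
  obtain ⟨T, par, bag, h1, h2, h3, h4, h5⟩ := huniv
  have htd : H729R3.HasTreeDec (inside G X).Adj t := by
    refine ⟨T, par, bag, h1, h2, fun v => h4 v (Finset.mem_univ _), ?_⟩
    intro u v huv
    obtain ⟨i, hi⟩ := h5 {u, v} (Finset.subset_univ _) (by
      intro x hx y hy hxy
      simp only [Finset.mem_insert, Finset.mem_singleton] at hx hy
      rcases hx with rfl | rfl <;> rcases hy with rfl | rfl
      · exact absurd rfl hxy
      · exact huv
      · exact huv.symm
      · exact absurd rfl hxy)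
    exact ⟨i, hi (by simp), hi (by simp)⟩
  obtain ⟨S, κ, hS, hκ, hc⟩ := H468R2.Frag.fragment (inside G X).Adj (t + 1) a ha X
    (fun A => H729R3.treeDec_separator (inside G X).Adj t htd (fun u v h => h.symm) X A)
  refine ⟨S, hS, ?_⟩
  intro C hCX hCS hconn
  rw [conn_iff] at hconn
  obtain ⟨⟨z, hz⟩, hr⟩ := hconn
  have hsub : C ⊆ ((X.filter fun v => v ∉ S ∧ κ v = κ z : Finset V) : Set V) := by
    intro y hy
    have hκy : κ y = κ z := by
      refine Rch.closed (hr z hz y hy) (p := fun y => κ y = κ z) rfl ?_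
      intro p hp q hq hpq hκp
      rw [← hκp]
      refine (hκ p q ?_ ?_ ?_).symm
      · exact fun hpS => Set.disjoint_left.1 hCS hp (by exact_mod_cast hpS)
      · exact fun hqS => Set.disjoint_left.1 hCS hq (by exact_mod_cast hqS)
      · exact ⟨by exact_mod_cast hCX hp, by exact_mod_cast hCX hq, hpq⟩
    simp only [Finset.coe_filter, Set.mem_setOf_eq]
    exact ⟨by exact_mod_cast hCX hy, fun hyS => Set.disjoint_left.1 hCS hy
      (by exact_mod_cast hyS), hκy⟩
  calc C.ncard ≤ ((X.filter fun v => v ∉ S ∧ κ v = κ z : Finset V) : Set V).ncard :=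
        Set.ncard_le_ncard hsub (Finset.finite_toSet _)
    _ = (X.filter fun v => v ∉ S ∧ κ v = κ z).card := Set.ncard_coe_finset _
    _ ≤ a := hc (κ z)

end Pool.Agent.Helper762_MX
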